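import Pool.Agent.Y417.KM.CohnDim

set_option autoImplicit false

open scoped BigOperators

/-! Cohn's theorem on two generators as a lower bound for dimensions. -/

namespace Pool.Agent.Y515.KI

open Pool.Agent.Y80.KM Pool.Agent.Y417.KM

section two

variable {k : Type*} [Field k]

/-- the map from the free nonassociative algebra on two generators -/
noncomputable def toJ2 : NF k 2 →ₙₐ[k] JA k :=
  FreeNonUnitalNonAssocAlgebra.lift k fun i : Fin 2 =>
    mkJ (MonoidAlgebra.single (FreeMonoid.of i.castSucc) 1)

theorem ideal_le2 : idealOf (jordRel k 2) ≤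
    LinearMap.ker ((toJ2 : NF k 2 →ₙₐ[k] JA k) : NF k 2 →ₗ[k] JA k) := by
  apply idealOf_le
  · rintro x ⟨a, b, h | h⟩
    · rw [SetLike.mem_coe, LinearMap.mem_ker, h]
      change toJ2 (a * b - b * a) = 0
      rw [map_sub, map_mul, map_mul, ja_comm, sub_self]
    · rw [SetLike.mem_coe, LinearMap.mem_ker, h]
      change toJ2 (((a * a) * b) * a - (a * a) * (b * a)) = 0
      simp only [map_sub, map_mul]
      rw [ja_jord, sub_self]
  · intro a x hx
    rw [LinearMap.mem_ker] at hx
    have hx' : toJ2 x = 0 := hx
    constructor <;> rw [LinearMap.mem_ker]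
    · change toJ2 (a * x) = 0
      rw [map_mul, hx', mul_zero]
    · change toJ2 (x * a) = 0
      rw [map_mul, hx', zero_mul]

/-- the induced map from the free Jordan algebra to the free associative algebra -/
noncomputable def jm2 : FreeJord k 2 →ₗ[k] FA k :=
  (idealOf (jordRel k 2)).liftQ _ ideal_le2

/-- inclusion of words -/
def inc : FreeMagma (Fin 2) → FreeMagma (Fin 3)
  | .of i => .of i.castSucc
  | .mul x y => .mul (inc x) (inc y)

theorem inc_length (w : FreeMagma (Fin 2)) : (inc w).length = w.length := by
  induction w with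
  | ih1 i => rfl
  | ih2 x y hx hy =>
    change (inc x).length + (inc y).length = x.length + y.length
    rw [hx, hy]

theorem toJ2_single (w : FreeMagma (Fin 2)) :
    un (toJ2 (MonoidAlgebra.single w 1 : NF k 2)) = mg (inc w) := by
  induction w with
  | ih1 i =>
    exact congrArg un (FreeNonUnitalNonAssocAlgebra.lift_of_apply (A := JA k) k
      (fun i : Fin 2 => mkJ (MonoidAlgebra.single (FreeMonoid.of i.castSucc) 1)) i)
  | ih2 x y hx hy =>
    have : (MonoidAlgebra.single (x * y) 1 : NF k 2) =
        MonoidAlgebra.single x 1 * MonoidAlgebra.single y 1 := by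
      rw [MonoidAlgebra.single_mul_single, one_mul]
    rw [this, map_mul, un_mul, hx, hy]
    rfl

theorem jm2_single (w : FreeMagma (Fin 2)) :
    jm2 (qmk (jordRel k 2) (MonoidAlgebra.single w 1)) = mg (inc w) :=
  toJ2_single w

theorem exists_inc : ∀ w : FreeMagma (Fin 3), content w 2 = 0 →
    ∃ w' : FreeMagma (Fin 2), inc w' = w := by
  intro w
  induction w with
  | ih1 i =>
    intro h
    change (Finsupp.single i 1 : Fin 3 →₀ ℕ) 2 = 0 at h
    fin_cases i
    · exact ⟨.of 0, rfl⟩
    · exact ⟨.of 1, rfl⟩
    · simp at h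
  | ih2 x y hx hy =>
    intro h
    have h' : content x 2 + content y 2 = 0 := h
    obtain ⟨x', rfl⟩ := hx (by omega)
    obtain ⟨y', rfl⟩ := hy (by omega)
    exact ⟨.mul x' y', rfl⟩

theorem cl_two (l : List (Fin 2)) : cl (l.map Fin.castSucc) 2 = 0 := by
  induction l with
  | nil => rfl
  | cons a l ih =>
    rw [List.map_cons, cl_cons, Finsupp.add_apply, ih, add_zero, Finsupp.single_apply]
    fin_cases a <;> decide

theorem T_mem [CharZero k] (l : List (Fin 2)) (hl : 1 ≤ l.length) :
    T k (l.map Fin.castSucc) ∈ Submodule.map jm2 (qcomp (jordRel k 2) l.length) := by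
  have h1 := cohn (k := k) (l.map Fin.castSucc) (by simpa using hl)
  have h2 : Im k (cl (l.map Fin.castSucc)) ≤
      Submodule.map jm2 (qcomp (jordRel k 2) l.length) := by
    refine Submodule.span_le.2 ?_
    rintro _ ⟨w, hw, rfl⟩
    obtain ⟨w', rfl⟩ := exists_inc w (by rw [hw]; exact cl_two l)
    refine ⟨_, Submodule.subset_span ⟨w', ?_, rfl⟩, jm2_single w'⟩
    rw [← inc_length, ← sum_content, hw, sum_cl, List.length_map]
  exact h2 h1

theorem card_le2 [CharZero k] {V : Type*} [AddCommGroup V] [Module k V] (f : V →ₗ[k] FA k)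
    (U : Submodule k V) [FiniteDimensional k U] (R : Finset (List (Fin 3)))
    (hR : ∀ l ∈ R, l ≤ l.reverse) (hT : ∀ l ∈ R, T k l ∈ Submodule.map f U) :
    R.card ≤ Module.finrank k U := by
  classical
  have hex : ∀ l : R, ∃ x : U, f (x : V) = T k l.1 := by
    intro l
    obtain ⟨x, hx, he⟩ := hT l.1 l.2
    exact ⟨⟨x, hx⟩, he⟩
  choose v hv using hex
  have hli : LinearIndependent k v := by
    apply LinearIndependent.of_comp (f.comp (Submodule.subtype U))
    rw [Fintype.linearIndependent_iff]
    intro g hg u
    have hg' := congrArg (cf (k := k) u.1) hg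
    rw [map_sum, map_zero] at hg'
    have key : ∀ l : R, cf u.1 (g l • ((f.comp (Submodule.subtype U)) ∘ v) l) =
        if l = u then g u * (1 + (if u.1.reverse = u.1 then 1 else 0)) else 0 := by
      intro l
      rw [map_smul, Function.comp_apply, LinearMap.comp_apply, Submodule.subtype_apply, hv, cf_T,
        smul_eq_mul]
      by_cases h : l = u
      · subst h
        simp
      · have h' : l.1 ≠ u.1 := fun e => h (Subtype.ext e)
        rw [if_neg h, if_neg h', if_neg, add_zero, mul_zero]
        intro e
        apply h'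
        have hl := hR l.1 l.2
        have hu := hR u.1 u.2
        rw [e] at hl
        rw [← e, List.reverse_reverse] at hu
        rw [e] at hu
        exact le_antisymm hl hu
    rw [Finset.sum_congr rfl fun l _ => key l, Finset.sum_ite_eq' Finset.univ u] at hg'
    simp only [Finset.mem_univ, if_true] at hg'
    rcases mul_eq_zero.mp hg' with h | h
    · exact h
    · exfalso
      split_ifs at h
      · norm_num at h
      · norm_num at h
  have := hli.fintype_card_le_finrank
  rw [Fintype.card_coe] at this
  exact this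

end two

section words

/-- the words of length `n` in the first two letters -/
def words2 (n : ℕ) : Finset (List (Fin 3)) :=
  (Finset.univ : Finset (Fin n → Fin 2)).image fun f => (List.ofFn f).map Fin.castSucc

theorem mem_words2 {n : ℕ} {l : List (Fin 3)} :
    l ∈ words2 n ↔ ∃ l' : List (Fin 2), l'.length = n ∧ l = l'.map Fin.castSucc := by
  rw [words2, Finset.mem_image]
  constructor
  · rintro ⟨f, _, rfl⟩
    exact ⟨List.ofFn f, List.length_ofFn, rfl⟩
  · rintro ⟨l', rfl, rfl⟩
    exact ⟨l'.get, Finset.mem_univ _, by simp⟩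

theorem map_cs_inj : Function.Injective (List.map (Fin.castSucc : Fin 2 → Fin 3)) :=
  List.map_injective_iff.2 (Fin.castSucc_injective 2)

theorem card_words2 (n : ℕ) : (words2 n).card = 2 ^ n := by
  have hinj : Function.Injective fun f : Fin n → Fin 2 => (List.ofFn f).map Fin.castSucc :=
    map_cs_inj.comp List.ofFn_injective
  rw [words2, Finset.card_image_of_injective _ hinj]
  simp

theorem pal_lower (n : ℕ) :
    2 ^ ((n + 1) / 2) ≤ ((words2 n).filter fun l => l.reverse = l).card := by
  classical
  have h : Fintype.card (Fin ((n + 1) / 2) → Fin 2) = 2 ^ ((n + 1) / 2) := by simp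
  rw [← h, ← Finset.card_univ]
  have hlt : ∀ i : Fin n, min i.1 (n - 1 - i.1) < (n + 1) / 2 := by
    intro i
    have := i.2
    omega
  refine Finset.card_le_card_of_injOn
    (fun g => (List.ofFn fun i : Fin n => g ⟨min i.1 (n - 1 - i.1), hlt i⟩).map Fin.castSucc)
    ?_ ?_
  · intro g _
    rw [Finset.mem_coe, Finset.mem_filter, mem_words2]
    refine ⟨⟨_, List.length_ofFn, rfl⟩, ?_⟩
    rw [← List.map_reverse]
    congr 1
    apply List.ext_getElem
    · simp
    · intro i h1 h2
      simp only [List.getElem_reverse, List.getElem_ofFn, List.length_ofFn]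
      congr 2
      simp only [List.length_ofFn] at h2
      omega
  · intro g _ g' _ hgg
    have h1 := List.ofFn_injective (map_cs_inj hgg)
    funext i
    have hi : i.1 < n := by have := i.2; omega
    have h2 := congrFun h1 ⟨i.1, hi⟩
    have e : min i.1 (n - 1 - i.1) = i.1 := by have := i.2; omega
    simp only [e] at h2
    exact h2

end words

theorem jord_two_lower (k : Type*) [Field k] [CharZero k] (n : ℕ) (hn : 1 ≤ n) :
    2 ^ n + 2 ^ ((n + 1) / 2) ≤ 2 * Module.finrank k (qcomp (jordRel k 2) n) := by
  classical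
  have hfin := qcomp_finite (jordRel k 2) n
  set S := words2 n with hS
  have hrev : ∀ l ∈ S, l.reverse ∈ S := by
    intro l hl
    rw [hS, mem_words2] at hl ⊢
    obtain ⟨l', h1, rfl⟩ := hl
    exact ⟨l'.reverse, by rw [List.length_reverse, h1], by rw [List.map_reverse]⟩
  set R := S.filter fun l => l ≤ l.reverse with hR
  have h1 : S ⊆ R ∪ R.image List.reverse := by
    intro l hl
    rw [Finset.mem_union]
    rcases le_total l l.reverse with h | h
    · exact Or.inl (Finset.mem_filter.mpr ⟨hl, h⟩)
    · right
      rw [Finset.mem_image]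
      refine ⟨l.reverse, Finset.mem_filter.mpr ⟨hrev l hl, ?_⟩, List.reverse_reverse l⟩
      rwa [List.reverse_reverse]
  have h2 : (S.filter fun l => l.reverse = l) ⊆ R ∩ R.image List.reverse := by
    intro l hl
    obtain ⟨hl1, hl2⟩ := Finset.mem_filter.1 hl
    have hlR : l ∈ R := Finset.mem_filter.2 ⟨hl1, by rw [hl2]⟩
    exact Finset.mem_inter.2 ⟨hlR, Finset.mem_image.2 ⟨l, hlR, hl2⟩⟩
  have h3 := Finset.card_union_add_card_inter R (R.image List.reverse)
  have h4 := Finset.card_le_card h1
  have h5 := Finset.card_le_card h2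
  have h6 : (R.image List.reverse).card ≤ R.card := Finset.card_image_le
  have h7 := pal_lower n
  rw [← hS] at h7
  have h8 : S.card = 2 ^ n := card_words2 n
  have h9 : R.card ≤ Module.finrank k (qcomp (jordRel k 2) n) := by
    apply card_le2 (k := k) jm2
    · intro l hl
      exact (Finset.mem_filter.1 hl).2
    · intro l hl
      obtain ⟨l', h1, rfl⟩ := mem_words2.1 (Finset.mem_filter.1 hl).1
      have := T_mem (k := k) l' (by omega)
      rwa [h1] at this
  omega

end Pool.Agent.Y515.KI
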