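import Pool.Agent.Y515.KI.JDimA
import Pool.Agent.Y960.KM.FreeJob

set_option autoImplicit false

open scoped BigOperators

/-! Multihomogeneous components of free Jordan algebras that involve two letters only. -/

namespace Pool.Agent.Y515.KI

open Pool.Agent.Y80.KM Pool.Agent.Y417.KM

section maps

variable {k : Type*} [Field k] {c d : ℕ}

theorem ideal_comap (φ : NF k c →ₙₐ[k] NF k d) :
    idealOf (jordRel k c) ≤ (idealOf (jordRel k d)).comap (φ : NF k c →ₗ[k] NF k d) := by
  apply idealOf_le
  · rintro x ⟨a, b, h⟩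
    rw [SetLike.mem_coe, Submodule.mem_comap]
    apply subset_idealOf
    rcases h with h | h
    · refine ⟨φ a, φ b, Or.inl ?_⟩
      rw [h]
      change φ (a * b - b * a) = _
      rw [map_sub, map_mul, map_mul]
    · refine ⟨φ a, φ b, Or.inr ?_⟩
      rw [h]
      change φ (((a * a) * b) * a - (a * a) * (b * a)) = _
      simp only [map_sub, map_mul]
  · intro a x hx
    have hx' : φ x ∈ idealOf (jordRel k d) := hx
    constructor
    · change φ (a * x) ∈ idealOf (jordRel k d)
      rw [map_mul]
      exact mul_mem_idealOf _ hx' _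
    · change φ (x * a) ∈ idealOf (jordRel k d)
      rw [map_mul]
      exact mul_mem_idealOf' _ hx' _

/-- the induced map of free Jordan algebras -/
noncomputable def jmap (φ : NF k c →ₙₐ[k] NF k d) : FreeJord k c →ₗ[k] FreeJord k d :=
  (idealOf (jordRel k c)).mapQ (idealOf (jordRel k d)) (φ : NF k c →ₗ[k] NF k d) (ideal_comap φ)

theorem jmap_mk (φ : NF k c →ₙₐ[k] NF k d) (x : NF k c) :
    jmap φ (qmk _ x) = qmk _ (φ x) := rfl

/-- renaming of letters -/
def ren (s : Fin c → Fin d) : FreeMagma (Fin c) → FreeMagma (Fin d)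
  | .of i => .of (s i)
  | .mul x y => .mul (ren s x) (ren s y)

/-- renaming as a homomorphism -/
noncomputable def renH (k : Type*) [Field k] (s : Fin c → Fin d) : NF k c →ₙₐ[k] NF k d :=
  FreeNonUnitalNonAssocAlgebra.lift k fun i => MonoidAlgebra.single (FreeMagma.of (s i)) 1

theorem renH_single (s : Fin c → Fin d) (w : FreeMagma (Fin c)) :
    renH k s (MonoidAlgebra.single w 1) = MonoidAlgebra.single (ren s w) 1 := by
  induction w with
  | ih1 i =>
    exact FreeNonUnitalNonAssocAlgebra.lift_of_apply k
      (fun i : Fin c => (MonoidAlgebra.single (FreeMagma.of (s i)) 1 : NF k d)) i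
  | ih2 x y hx hy =>
    have : (MonoidAlgebra.single (x * y) 1 : NF k c) =
        MonoidAlgebra.single x 1 * MonoidAlgebra.single y 1 := by
      rw [MonoidAlgebra.single_mul_single, one_mul]
    rw [this, map_mul, hx, hy, MonoidAlgebra.single_mul_single, one_mul]
    rfl

theorem content_ren (s : Fin c → Fin d) (w : FreeMagma (Fin c)) :
    content (ren s w) = Finsupp.mapDomain s (content w) := by
  induction w with
  | ih1 i => simp [ren, content]
  | ih2 x y hx hy =>
    change content (ren s x) + content (ren s y) = Finsupp.mapDomain s (content x + content y)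
    rw [hx, hy, Finsupp.mapDomain_add]

/-- left inverse of the renaming -/
noncomputable def backH (k : Type*) [Field k] (s : Fin c → Fin d) : NF k d →ₙₐ[k] NF k c := by
  classical
  exact FreeNonUnitalNonAssocAlgebra.lift k fun j =>
    if h : ∃ i, s i = j then MonoidAlgebra.single (FreeMagma.of h.choose) 1 else 0

theorem back_ren (s : Fin c → Fin d) (hs : Function.Injective s) (x : NF k c) :
    backH k s (renH k s x) = x := by
  classical
  have h : (backH k s).comp (renH k s) = NonUnitalAlgHom.id k (NF k c) := by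
    apply FreeNonUnitalNonAssocAlgebra.hom_ext
    intro i
    change backH k s (renH k s (FreeNonUnitalNonAssocAlgebra.of k i)) =
      FreeNonUnitalNonAssocAlgebra.of k i
    have e1 : renH k s (FreeNonUnitalNonAssocAlgebra.of k i) =
        FreeNonUnitalNonAssocAlgebra.of k (s i) :=
      FreeNonUnitalNonAssocAlgebra.lift_of_apply k
        (fun i : Fin c => (MonoidAlgebra.single (FreeMagma.of (s i)) 1 : NF k d)) i
    have e2 : backH k s (FreeNonUnitalNonAssocAlgebra.of k (s i)) =
        if h : ∃ i', s i' = s i then MonoidAlgebra.single (FreeMagma.of h.choose) 1 else 0 :=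
      FreeNonUnitalNonAssocAlgebra.lift_of_apply k
        (fun j : Fin d => if h : ∃ i, s i = j then
          (MonoidAlgebra.single (FreeMagma.of h.choose) 1 : NF k c) else 0) (s i)
    have hex : ∃ i', s i' = s i := ⟨i, rfl⟩
    rw [e1, e2, dif_pos hex, hs hex.choose_spec]
    rfl
  exact congrArg (fun f : NF k c →ₙₐ[k] NF k c => f x) h

theorem jmap_inj (s : Fin c → Fin d) (hs : Function.Injective s) :
    Function.Injective (jmap (renH k s)) := by
  apply Function.LeftInverse.injective (g := jmap (backH k s))
  intro x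
  obtain ⟨y, rfl⟩ := qmk_surjective _ x
  rw [jmap_mk, jmap_mk, back_ren s hs]

theorem exists_ren (s : Fin c → Fin d) : ∀ w : FreeMagma (Fin d),
    (∀ j, content w j ≠ 0 → ∃ i, s i = j) → ∃ w', ren s w' = w := by
  intro w
  induction w with
  | ih1 j =>
    intro h
    obtain ⟨i, hi⟩ := h j (by
      change (Finsupp.single j 1 : Fin d →₀ ℕ) j ≠ 0
      rw [Finsupp.single_eq_same]; exact one_ne_zero)
    exact ⟨.of i, by rw [ren, hi]⟩
  | ih2 x y hx hy =>
    intro h
    have hadd : ∀ j, content (x * y) j = content x j + content y j := fun j => rfl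
    obtain ⟨x', rfl⟩ := hx (fun j hj => h j (by rw [hadd]; omega))
    obtain ⟨y', rfl⟩ := hy (fun j hj => h j (by rw [hadd]; omega))
    exact ⟨.mul x' y', rfl⟩

theorem map_qmcomp_ren (s : Fin c → Fin d) (hs : Function.Injective s) (α : Fin c →₀ ℕ) :
    Submodule.map (jmap (renH k s)) (qmcomp (jordRel k c) α) =
      qmcomp (jordRel k d) (Finsupp.mapDomain s α) := by
  rw [qmcomp, qmcomp, Submodule.map_span]
  congr 1
  ext x
  constructor
  · rintro ⟨y, ⟨w, hw, rfl⟩, rfl⟩
    refine ⟨ren s w, by rw [content_ren, hw], ?_⟩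
    rw [jmap_mk, renH_single]
  · rintro ⟨w, hw, rfl⟩
    obtain ⟨w', rfl⟩ := exists_ren s w (by
      intro j hj
      by_contra hcon
      push Not at hcon
      apply hj
      rw [hw]
      exact Finsupp.mapDomain_of_notMem_range _ _ (by rintro ⟨i, hi⟩; exact hcon i hi))
    rw [content_ren] at hw
    have hw' := Finsupp.mapDomain_injective hs hw
    refine ⟨_, ⟨w', hw', rfl⟩, ?_⟩
    rw [jmap_mk, renH_single]

theorem finrank_ren (s : Fin c → Fin d) (hs : Function.Injective s) (α : Fin c →₀ ℕ) :
    Module.finrank k (qmcomp (jordRel k d) (Finsupp.mapDomain s α)) =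
      Module.finrank k (qmcomp (jordRel k c) α) := by
  rw [← map_qmcomp_ren s hs]
  exact (LinearEquiv.finrank_eq (Submodule.equivMapOfInjective _ (jmap_inj s hs) _)).symm

end maps

section decomp

variable {k : Type*} [Field k]

/-- doubling of the first generator -/
noncomputable def dbl0 (k : Type*) [Field k] : NF k 2 →ₙₐ[k] NF k 2 :=
  FreeNonUnitalNonAssocAlgebra.lift k fun i : Fin 2 =>
    (if i = 0 then (2 : k) else 1) • MonoidAlgebra.single (FreeMagma.of i) 1

theorem dbl0_single (w : FreeMagma (Fin 2)) :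
    dbl0 k (MonoidAlgebra.single w 1) = (2 : k) ^ (content w 0) • MonoidAlgebra.single w 1 := by
  induction w with
  | ih1 i =>
    have := FreeNonUnitalNonAssocAlgebra.lift_of_apply k
      (fun i : Fin 2 => (if i = 0 then (2 : k) else 1) •
        (MonoidAlgebra.single (FreeMagma.of i) 1 : NF k 2)) i
    change dbl0 k (MonoidAlgebra.single (FreeMagma.of i) 1) = _ at this
    rw [this]
    congr 1
    change _ = (2 : k) ^ ((Finsupp.single i 1 : Fin 2 →₀ ℕ) 0)
    fin_cases i <;> simp
  | ih2 x y hx hy =>
    have e : (MonoidAlgebra.single (x * y) 1 : NF k 2) =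
        MonoidAlgebra.single x 1 * MonoidAlgebra.single y 1 := by
      rw [MonoidAlgebra.single_mul_single, one_mul]
    rw [e, map_mul, hx, hy, smul_mul_smul_comm, ← pow_add]
    rfl

/-- the component of bidegree `(m, n - m)` -/
noncomputable def Qm (k : Type*) [Field k] (n : ℕ) (m : Fin (n + 1)) :
    Submodule k (FreeJord k 2) :=
  qmcomp (jordRel k 2) (Finsupp.single 0 m.1 + Finsupp.single 1 (n - m.1))

theorem Qm_indep [CharZero k] (n : ℕ) : iSupIndep (Qm k n) := by
  let Φ : Module.End k (FreeJord k 2) := jmap (dbl0 k)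
  have hind := Φ.eigenspaces_iSupIndep
  have hinj : Function.Injective fun m : Fin (n + 1) => (2 : k) ^ m.1 := by
    intro m m' h
    have h' : ((2 ^ m.1 : ℕ) : k) = ((2 ^ m'.1 : ℕ) : k) := by push_cast; exact h
    exact Fin.ext (Nat.pow_right_injective le_rfl (Nat.cast_injective h'))
  refine (hind.comp hinj).mono ?_
  intro m
  change Qm k n m ≤ Module.End.eigenspace Φ ((2 : k) ^ m.1)
  unfold Qm
  rw [qmcomp, Submodule.span_le]
  rintro x ⟨w, hw, rfl⟩
  rw [SetLike.mem_coe, Module.End.mem_eigenspace_iff]
  change jmap (dbl0 k) (qmk _ _) = _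
  rw [jmap_mk, dbl0_single, map_smul, hw]
  congr 2
  simp

theorem Qm_sup (n : ℕ) : ⨆ m, Qm k n m = qcomp (jordRel k 2) n := by
  apply le_antisymm
  · refine iSup_le fun m => ?_
    unfold Qm
    rw [qmcomp, qcomp, Submodule.span_le]
    rintro x ⟨w, hw, rfl⟩
    refine Submodule.subset_span ⟨w, ?_, rfl⟩
    rw [← sum_content, hw, Fin.sum_univ_two]
    have := m.2
    simp
    omega
  · rw [qcomp, Submodule.span_le]
    rintro x ⟨w, hw, rfl⟩
    have h1 : content w 0 + content w 1 = n := by
      rw [← hw, ← sum_content, Fin.sum_univ_two]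
    have hm : content w 0 < n + 1 := by omega
    have h2 : qmk (jordRel k 2) (MonoidAlgebra.single w 1) ∈ Qm k n ⟨content w 0, hm⟩ := by
      apply Submodule.subset_span
      refine ⟨w, ?_, rfl⟩
      ext i
      fin_cases i
      · simp
      · simp
        omega
    exact Submodule.mem_iSup_of_mem _ h2

theorem finrank_Qm [CharZero k] (n : ℕ) :
    Module.finrank k (qcomp (jordRel k 2) n) = ∑ m, Module.finrank k (Qm k n m) := by
  classical
  have hf : ∀ m, FiniteDimensional k (Qm k n m) := fun m => qmcomp_finite _ _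
  rw [← Qm_sup, ← DirectSum.range_coeLinearMap, LinearMap.finrank_range_of_inj,
    Module.finrank_directSum]
  exact (Qm_indep n).dfinsupp_lsum_injective

end decomp

theorem jord_letters (k : Type*) [Field k] [CharZero k] (d : ℕ) (i j : Fin d) (hij : i ≠ j)
    (n : ℕ) : ∑ m ∈ Finset.range (n + 1), Module.finrank k
      (qmcomp (jordRel k d) (Finsupp.single i m + Finsupp.single j (n - m))) =
      Module.finrank k (qcomp (jordRel k 2) n) := by
  let s : Fin 2 → Fin d := fun a => if a = 0 then i else j
  have hs : Function.Injective s := by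
    intro a b h
    fin_cases a <;> fin_cases b
    · rfl
    · exact absurd h hij
    · exact absurd h.symm hij
    · rfl
  rw [finrank_Qm, Finset.sum_range]
  apply Finset.sum_congr rfl
  intro m _
  unfold Qm
  rw [← finrank_ren s hs, Finsupp.mapDomain_add, Finsupp.mapDomain_single,
    Finsupp.mapDomain_single]
  rfl

end Pool.Agent.Y515.KI
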