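import Pool.Agent.Y80.KI.DefsS

set_option autoImplicit false

open scoped BigOperators

/-! Shirshov's theorem: the relations of the operators `U_{a,b}` of a unital Jordan algebra, where
`a`, `b` are powers of two elements. -/

namespace Pool.Agent.Y515.KI

open Pool.Agent.Y80.KI Pool.Agent.Y80.KM

section abs

variable {R : Type*} [Ring R]

theorem abs_E (h2 : ∀ a : R, 2 * a = 0 → a = 0) (V T : ℕ → R) (U : R) (W : ℕ → ℕ → R)
    (hc : ∀ m, U * V m = V m * U) (hV0 : V 0 = 2)
    (hV : ∀ m, V (m + 1) * V 1 = V (m + 2) + U * V m)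
    (hW : ∀ m n, W (m + 1) (n + 1) = U * W m n)
    (hS : ∀ m n, V m * T n + V n * T m = 2 * T (m + n) + W m n * T 0) :
    ∀ m n, V (m + 1) * T (n + 1) - T (m + n + 2) = U * (V m * T n - T (m + n)) := by
  set G : ℕ → ℕ → R := fun m n => V (m + 1) * T (n + 1) - T (m + n + 2) -
    U * (V m * T n - T (m + n)) with hG
  have key : ∀ N m n, m + n = N → G m n = 0 := by
    intro N
    induction N using Nat.strong_induction_on with
    | _ N ih =>
    have step : ∀ m n, m + 1 + n = N → G (m + 1) n = G m (n + 1) := by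
      intro m n hmn
      have h1 := ih n (by omega) 0 n (by omega)
      simp only [hG] at h1 ⊢
      rw [hV0] at h1
      have h3 : V 1 * T (n + 1) = T (n + 2) + U * T n := by
        have e : (0 : ℕ) + n + 2 = n + 2 := by ring
        have e' : (0 : ℕ) + n = n := by ring
        rw [e, e'] at h1
        have h4 : (2 : R) * T n - T n = T n := by noncomm_ring
        rw [h4, sub_sub, sub_eq_zero] at h1
        exact h1
      have h5 : V (m + 2) = V (m + 1) * V 1 - U * V m := by rw [hV m]; abel
      have h6 : V (m + 2) * T (n + 1) = V (m + 1) * T (n + 2) + U * V (m + 1) * T n -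
          U * V m * T (n + 1) := by
        rw [h5, sub_mul, mul_assoc (V (m + 1)), h3, mul_add, ← mul_assoc (V (m + 1)) U, ← hc]
      have e1 : m + 1 + n + 2 = m + (n + 1) + 2 := by ring
      have e2 : m + 1 + n = m + (n + 1) := by ring
      have e3 : m + 1 + 1 = m + 2 := by ring
      have e4 : n + 1 + 1 = n + 2 := by ring
      rw [e1, e2, e3, e4, h6]
      noncomm_ring
    have h0 : ∀ m n, m + n = N → G m n = G 0 N := by
      intro m
      induction m with
      | zero =>
        intro n hn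
        have : n = N := by omega
        rw [this]
      | succ m ihm =>
        intro n hn
        rw [step m n hn]
        exact ihm (n + 1) (by omega)
    have h1 : G 0 N + G N 0 = 0 := by
      simp only [hG]
      have s1 := hS (0 + 1) (N + 1)
      have s0 := hS 0 N
      rw [hW] at s1
      have e1 : 0 + N + 2 = N + 2 := by ring
      have e2 : 0 + N = N := by ring
      have e3 : N + 0 + 2 = N + 2 := by ring
      have e4 : N + 0 = N := by ring
      have e5 : 0 + 1 + (N + 1) = N + 2 := by ring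
      rw [e5] at s1
      rw [e2] at s0
      rw [e1, e2, e3, e4]
      have : V (0 + 1) * T (N + 1) - T (N + 2) - U * (V 0 * T N - T N) +
          (V (N + 1) * T (0 + 1) - T (N + 2) - U * (V N * T 0 - T N)) =
          (V (0 + 1) * T (N + 1) + V (N + 1) * T (0 + 1)) - 2 * T (N + 2) -
            U * ((V 0 * T N + V N * T 0) - 2 * T N) := by noncomm_ring
      rw [this, s1, s0]
      noncomm_ring
    have h3 : G N 0 = G 0 N := h0 N 0 (by omega)
    have h4 : G 0 N = 0 := by
      apply h2
      rw [two_mul]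
      nth_rewrite 2 [← h3]
      exact h1
    intro m n hmn
    rw [h0 m n hmn, h4]
  intro m n
  exact sub_eq_zero.1 (key _ m n rfl)

theorem abs_pow (V T : ℕ → R) (U : R)
    (h : ∀ m n, V (m + 1) * T (n + 1) - T (m + n + 2) = U * (V m * T n - T (m + n))) :
    ∀ l m n, V (m + l) * T (n + l) - T (m + l + (n + l)) = U ^ l * (V m * T n - T (m + n)) := by
  intro l
  induction l with
  | zero => intro m n; simp
  | succ l ih =>
    intro m n
    have e : m + (l + 1) + (n + (l + 1)) = (m + l) + (n + l) + 2 := by ring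
    rw [e, ← add_assoc, ← add_assoc, h, ih, pow_succ']
    noncomm_ring

theorem abs_W (U : R) (W : ℕ → ℕ → R) (hW0 : W 0 0 = 2)
    (hW : ∀ m n, W (m + 1) (n + 1) = U * W m n) : ∀ l, W l l = 2 * U ^ l := by
  intro l
  induction l with
  | zero => rw [hW0]; simp
  | succ l ih => rw [hW, ih, pow_succ']; noncomm_ring

/-- the relations `XT` and `XT'` -/
theorem abs_XT (h2 : ∀ a : R, 2 * a = 0 → a = 0) (V T : ℕ → R) (U : R) (W : ℕ → ℕ → R)
    (hc : ∀ m, U * V m = V m * U) (hV0 : V 0 = 2) (hW0 : W 0 0 = 2)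
    (hV : ∀ m, V (m + 1) * V 1 = V (m + 2) + U * V m)
    (hW : ∀ m n, W (m + 1) (n + 1) = U * W m n)
    (hS : ∀ m n, V m * T n + V n * T m = 2 * T (m + n) + W m n * T 0) :
    (∀ m n, 2 * (V m * T (m + n)) = 2 * T (m + m + n) + W m m * T n) ∧
    ∀ m n, 2 * (V (m + n) * T n) = 2 * T (m + n + n) + W n n * (V m * T 0 - T m) := by
  have h := abs_pow V T U (abs_E h2 V T U W hc hV0 hV hW hS)
  have hWl := abs_W U W hW0 hW
  constructor
  · intro m n
    have h1 := h m 0 n
    have e1 : 0 + m = m := by ring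
    have e2 : n + m = m + n := by ring
    have e3 : m + (m + n) = m + m + n := by ring
    have e4 : 0 + n = n := by ring
    rw [e1, e2, e3, e4, hV0] at h1
    rw [hWl m, sub_eq_iff_eq_add.1 h1]
    noncomm_ring
  · intro m n
    have h1 := h n m 0
    have e1 : 0 + n = n := by ring
    have e2 : m + 0 = m := by ring
    rw [e1, e2] at h1
    rw [hWl n, sub_eq_iff_eq_add.1 h1]
    noncomm_ring

end abs

section jord

variable {k J : Type*} [Field k] [CharZero k] [NonAssocRing J] [Module k J]
  [IsScalarTower k J J] [SMulCommClass k J J]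

/-- multiplication operators -/
abbrev LL (k : Type*) {J : Type*} [Field k] [NonAssocRing J] [Module k J]
    [IsScalarTower k J J] [SMulCommClass k J J] (a : J) : Module.End k J := LinearMap.mulLeft k a

omit [IsScalarTower k J J] [SMulCommClass k J J] in
theorem end_two (a : Module.End k J) (h : 2 * a = 0) : a = 0 := by
  have : (2 : k) • a = 0 := by rw [two_smul, ← two_mul]; exact h
  exact (smul_eq_zero.1 this).resolve_left two_ne_zero

omit [CharZero k] [IsScalarTower k J J] [SMulCommClass k J J] in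
theorem two_ap' (L : Module.End k J) (v : J) : (2 * L) v = (2 : k) • L v := by
  rw [two_mul, LinearMap.add_apply, two_smul]

omit [CharZero k] in
theorem LL_add (a b : J) : LL k (a + b) = LL k a + LL k b := by
  ext z; simp [add_mul]

omit [CharZero k] in
theorem LL_sub (a b : J) : LL k (a - b) = LL k a - LL k b := by
  ext z; simp [sub_mul]

omit [CharZero k] in
theorem LL_one : LL k (1 : J) = 1 := by
  ext z; simp

variable (hJ : IsJord J)
include hJ

theorem jc (a b : J) : a * b = b * a := (hJ a b).1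

omit [CharZero k] in
theorem J0 (u : J) : LL k (u * u) * LL k u = LL k u * LL k (u * u) := by
  ext v
  simp only [Module.End.mul_apply, LinearMap.mulLeft_apply]
  rw [jc hJ u v, ← (hJ u v).2]
  exact jc hJ _ _

theorem C1 (a b : J) : LL k (a * a) * LL k b + 2 * (LL k (a * b) * LL k a) =
    LL k b * LL k (a * a) + 2 * (LL k a * LL k (a * b)) := by
  have h1 := J0 (k := k) hJ (a + b)
  have h2 := J0 (k := k) hJ (a - b)
  have h3 := J0 (k := k) hJ b
  have e1 : (a + b) * (a + b) = a * a + (a * b + a * b) + b * b := by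
    rw [mul_add, add_mul, add_mul, jc hJ b a]; abel
  have e2 : (a - b) * (a - b) = a * a - (a * b + a * b) + b * b := by
    rw [mul_sub, sub_mul, sub_mul, jc hJ b a]; abel
  rw [e1] at h1
  rw [e2] at h2
  simp only [LL_add, LL_sub] at h1 h2
  rw [← sub_eq_zero] at h1 h2 h3 ⊢
  apply end_two
  have e : 2 * (LL k (a * a) * LL k b + 2 * (LL k (a * b) * LL k a) -
      (LL k b * LL k (a * a) + 2 * (LL k a * LL k (a * b)))) =
      ((LL k (a * a) + (LL k (a * b) + LL k (a * b)) + LL k (b * b)) * (LL k a + LL k b) -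
        (LL k a + LL k b) * (LL k (a * a) + (LL k (a * b) + LL k (a * b)) + LL k (b * b))) -
      ((LL k (a * a) - (LL k (a * b) + LL k (a * b)) + LL k (b * b)) * (LL k a - LL k b) -
        (LL k a - LL k b) * (LL k (a * a) - (LL k (a * b) + LL k (a * b)) + LL k (b * b))) -
      2 * (LL k (b * b) * LL k b - LL k b * LL k (b * b)) := by noncomm_ring
  rw [e, h1, h2, h3]; simp

theorem C2 (a b c : J) : LL k (a * c) * LL k b + LL k (a * b) * LL k c + LL k (c * b) * LL k a =
    LL k b * LL k (a * c) + LL k c * LL k (a * b) + LL k a * LL k (c * b) := by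
  have h1 := C1 (k := k) hJ (a + c) b
  have h2 := C1 (k := k) hJ a b
  have h3 := C1 (k := k) hJ c b
  have e1 : (a + c) * (a + c) = a * a + (a * c + a * c) + c * c := by
    rw [mul_add, add_mul, add_mul, jc hJ c a]; abel
  rw [e1, add_mul] at h1
  simp only [LL_add] at h1
  rw [← sub_eq_zero] at h1 h2 h3 ⊢
  apply end_two
  have e : 2 * (LL k (a * c) * LL k b + LL k (a * b) * LL k c + LL k (c * b) * LL k a -
      (LL k b * LL k (a * c) + LL k c * LL k (a * b) + LL k a * LL k (c * b))) =
      ((LL k (a * a) + (LL k (a * c) + LL k (a * c)) + LL k (c * c)) * LL k b +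
        2 * ((LL k (a * b) + LL k (c * b)) * (LL k a + LL k c)) -
        (LL k b * (LL k (a * a) + (LL k (a * c) + LL k (a * c)) + LL k (c * c)) +
        2 * ((LL k a + LL k c) * (LL k (a * b) + LL k (c * b))))) -
      (LL k (a * a) * LL k b + 2 * (LL k (a * b) * LL k a) -
        (LL k b * LL k (a * a) + 2 * (LL k a * LL k (a * b)))) -
      (LL k (c * c) * LL k b + 2 * (LL k (c * b) * LL k c) -
        (LL k b * LL k (c * c) + 2 * (LL k c * LL k (c * b)))) := by noncomm_ring
  rw [e, h1, h2, h3]; simp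

theorem F2 (w x y : J) : LL k ((w * x) * y) = LL k (y * w) * LL k x + LL k (y * x) * LL k w +
    LL k (w * x) * LL k y - LL k w * LL k y * LL k x - LL k x * LL k y * LL k w := by
  ext z
  have h := congrArg (fun f : Module.End k J => f y) (C2 (k := k) hJ w z x)
  simp only [Module.End.mul_apply, LinearMap.mulLeft_apply, LinearMap.add_apply,
    LinearMap.sub_apply] at h ⊢
  rw [jc hJ (w * x * y) z, jc hJ y w, jc hJ y x, jc hJ y z, jc hJ (w * y) (x * z),
    jc hJ (x * y) (w * z), jc hJ y (x * z), jc hJ y (w * z)]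
  rw [← sub_eq_zero] at h ⊢
  have e : z * (w * x * y) - (x * z * (w * y) + w * z * (x * y) + w * x * (z * y) -
      w * (x * z * y) - x * (w * z * y)) = -(w * x * (z * y) + w * z * (x * y) + x * z * (w * y) -
      (z * (w * x * y) + x * (w * z * y) + w * (x * z * y))) := by abel
  rw [e, h, neg_zero]

omit [CharZero k] in
theorem uop_comm (a b : J) : uop k a b = uop k b a := by
  unfold uop
  rw [jc hJ a b, add_comm (LinearMap.mulLeft k a * LinearMap.mulLeft k b)]

omit hJ [CharZero k] in
theorem uop_one (a : J) : uop k a 1 = 2 * LL k a := by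
  unfold uop
  change 2 * (LL k a * LL k 1 + LL k 1 * LL k a - LL k (a * 1)) = _
  rw [LL_one, mul_one, one_mul, mul_one, add_sub_cancel_right]

omit hJ [CharZero k] in
theorem uop_11 : uop k (1 : J) 1 = 2 := by
  rw [uop_one, LL_one, mul_one]

theorem S1 (a b c : J) : uop k a 1 * uop k c b + uop k c 1 * uop k a b =
    2 * uop k (a * c) b + uop k a c * uop k b 1 := by
  have h1 := C2 (k := k) hJ a b c
  have h2 := F2 (k := k) hJ a c b
  simp only [uop_one]
  unfold uop
  change 2 * LL k a * (2 * (LL k c * LL k b + LL k b * LL k c - LL k (c * b))) +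
    2 * LL k c * (2 * (LL k a * LL k b + LL k b * LL k a - LL k (a * b))) =
    2 * (2 * (LL k (a * c) * LL k b + LL k b * LL k (a * c) - LL k (a * c * b))) +
    2 * (LL k a * LL k c + LL k c * LL k a - LL k (a * c)) * (2 * LL k b)
  rw [jc hJ b a, jc hJ b c] at h2
  rw [h2]
  rw [← sub_eq_zero] at h1 ⊢
  have e : 2 * LL k a * (2 * (LL k c * LL k b + LL k b * LL k c - LL k (c * b))) +
    2 * LL k c * (2 * (LL k a * LL k b + LL k b * LL k a - LL k (a * b))) -
    (2 * (2 * (LL k (a * c) * LL k b + LL k b * LL k (a * c) - (LL k (a * b) * LL k c +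
      LL k (c * b) * LL k a + LL k (a * c) * LL k b - LL k a * LL k b * LL k c -
      LL k c * LL k b * LL k a))) +
    2 * (LL k a * LL k c + LL k c * LL k a - LL k (a * c)) * (2 * LL k b)) =
    4 * (LL k (a * c) * LL k b + LL k (a * b) * LL k c + LL k (c * b) * LL k a -
      (LL k b * LL k (a * c) + LL k c * LL k (a * b) + LL k a * LL k (c * b))) := by
    noncomm_ring
  rw [e, h1, mul_zero]

theorem S2 (a b c : J) : uop k c b * uop k a 1 + uop k a b * uop k c 1 =
    2 * uop k (a * c) b + uop k b 1 * uop k a c := by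
  have h2 := F2 (k := k) hJ a c b
  simp only [uop_one]
  unfold uop
  change 2 * (LL k c * LL k b + LL k b * LL k c - LL k (c * b)) * (2 * LL k a) +
    2 * (LL k a * LL k b + LL k b * LL k a - LL k (a * b)) * (2 * LL k c) =
    2 * (2 * (LL k (a * c) * LL k b + LL k b * LL k (a * c) - LL k (a * c * b))) +
    2 * LL k b * (2 * (LL k a * LL k c + LL k c * LL k a - LL k (a * c)))
  rw [jc hJ b a, jc hJ b c] at h2
  rw [h2]
  noncomm_ring

/-! ### powers -/

theorem pw_L (x : J) (n : ℕ) : LL k (pw x (n + 2)) = LL k (pw x (n + 1)) * LL k x +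
    LL k (x * x) * LL k (pw x n) + LL k (pw x (n + 1)) * LL k x -
    LL k (pw x n) * LL k x * LL k x - LL k x * LL k x * LL k (pw x n) := by
  have h := F2 (k := k) hJ (pw x n) x x
  have e1 : pw x n * x = pw x (n + 1) := by rw [jc hJ]; rfl
  have e2 : x * pw x n = pw x (n + 1) := rfl
  have e3 : pw x (n + 1) * x = pw x (n + 2) := by rw [jc hJ]; rfl
  rw [e1, e2, e3] at h
  exact h

theorem pw_comm0 (x : J) (c : Module.End k J) (h1 : Commute c (LL k x))
    (h2 : Commute c (LL k (x * x))) : ∀ n, Commute c (LL k (pw x n)) := by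
  intro n
  induction n using Nat.strong_induction_on with
  | _ n ih =>
  rcases n with _ | _ | n
  · change Commute c (LL k (1 : J))
    rw [LL_one]; exact Commute.one_right c
  · change Commute c (LL k (x * 1))
    rw [mul_one]; exact h1
  · have a := ih n (by omega)
    have b := ih (n + 1) (by omega)
    have e := pw_L (k := k) hJ x n
    change Commute c (LL k (pw x (n + 2)))
    rw [e]
    exact ((((b.mul_right h1).add_right (h2.mul_right a)).add_right (b.mul_right h1)).sub_right
      ((a.mul_right h1).mul_right h1)).sub_right ((h1.mul_right h1).mul_right a)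

theorem pw_comm (x : J) (m n : ℕ) : Commute (LL k (pw x m)) (LL k (pw x n)) := by
  have h0 : Commute (LL k x) (LL k (x * x)) := (J0 (k := k) hJ x).symm
  have h1 : ∀ n, Commute (LL k x) (LL k (pw x n)) :=
    pw_comm0 hJ x _ (Commute.refl _) h0
  have h2 : ∀ n, Commute (LL k (x * x)) (LL k (pw x n)) :=
    pw_comm0 hJ x _ h0.symm (Commute.refl _)
  exact pw_comm0 hJ x _ (h1 m).symm (h2 m).symm n

theorem pw_mul (k : Type*) [Field k] [CharZero k] [Module k J] [IsScalarTower k J J]
    [SMulCommClass k J J] (x : J) (m n : ℕ) : pw x m * pw x n = pw x (m + n) := by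
  induction m with
  | zero => rw [zero_add]; exact one_mul _
  | succ m ih =>
    have h := congrArg (fun f : Module.End k J => f (pw x m)) (pw_comm (k := k) hJ x 1 n)
    simp only [Module.End.mul_apply, LinearMap.mulLeft_apply] at h
    have e : pw x 1 = x := mul_one x
    rw [e] at h
    have e2 : m + 1 + n = (m + n) + 1 := by ring
    rw [e2]
    change (x * pw x m) * pw x n = x * pw x (m + n)
    rw [← ih, jc hJ (x * pw x m), ← h, jc hJ (pw x m)]

theorem pw_V (x : J) (a b c : ℕ) : uop k (pw x a) (pw x b) * uop k (pw x c) 1 =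
    uop k (pw x (a + c)) (pw x b) + uop k (pw x a) (pw x (b + c)) := by
  have h := F2 (k := k) hJ (pw x a) (pw x b) (pw x c)
  rw [pw_mul hJ k, pw_mul hJ k, pw_mul hJ k, pw_mul hJ k] at h
  rw [uop_one]
  unfold uop
  rw [pw_mul hJ k, pw_mul hJ k, pw_mul hJ k]
  change 2 * (LL k (pw x a) * LL k (pw x b) + LL k (pw x b) * LL k (pw x a) -
    LL k (pw x (a + b))) * (2 * LL k (pw x c)) =
    2 * (LL k (pw x (a + c)) * LL k (pw x b) + LL k (pw x b) * LL k (pw x (a + c)) -
    LL k (pw x (a + c + b))) +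
    2 * (LL k (pw x a) * LL k (pw x (b + c)) + LL k (pw x (b + c)) * LL k (pw x a) -
    LL k (pw x (a + (b + c))))
  have e1 : a + c + b = a + b + c := by ring
  have e2 : a + (b + c) = a + b + c := by ring
  have e3 : c + a = a + c := by ring
  have e4 : c + b = b + c := by ring
  have c1 : LL k (pw x b) * LL k (pw x (a + c)) = LL k (pw x (a + c)) * LL k (pw x b) :=
    pw_comm hJ x _ _
  have c2 : LL k (pw x a) * LL k (pw x (b + c)) = LL k (pw x (b + c)) * LL k (pw x a) :=
    pw_comm hJ x _ _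
  have c3 : LL k (pw x b) * LL k (pw x a) = LL k (pw x a) * LL k (pw x b) :=
    pw_comm hJ x _ _
  have c4 : LL k (pw x c) * LL k (pw x b) = LL k (pw x b) * LL k (pw x c) :=
    pw_comm hJ x _ _
  have c5 : LL k (pw x c) * LL k (pw x a) = LL k (pw x a) * LL k (pw x c) :=
    pw_comm hJ x _ _
  have c7 : LL k (pw x a) * LL k (pw x c) * LL k (pw x b) =
      LL k (pw x a) * LL k (pw x b) * LL k (pw x c) := by
    rw [mul_assoc, c4, ← mul_assoc]
  have c8 : LL k (pw x b) * LL k (pw x c) * LL k (pw x a) =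
      LL k (pw x a) * LL k (pw x b) * LL k (pw x c) := by
    rw [mul_assoc, c5, ← mul_assoc, c3]
  rw [e3, e4, c7, c8] at h
  rw [e1, e2, h, c1, c2, c3]
  noncomm_ring

/-- `XX` -/
theorem pw_XX (x : J) (i j a b : ℕ) : uop k (pw x i) (pw x j) * uop k (pw x a) (pw x b) =
    uop k (pw x (i + a)) (pw x (j + b)) + uop k (pw x (i + b)) (pw x (j + a)) := by
  have h0 := pw_V (k := k) hJ x a 0 b
  have e0 : pw x 0 = 1 := rfl
  have e1 : 0 + b = b := by ring
  rw [e0, e1] at h0
  have h1 : uop k (pw x a) (pw x b) = uop k (pw x a) 1 * uop k (pw x b) 1 -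
      uop k (pw x (a + b)) 1 := by rw [h0]; abel
  rw [h1, mul_sub, ← mul_assoc, pw_V hJ, pw_V hJ, add_mul, pw_V hJ, pw_V hJ]
  have e2 : i + (a + b) = i + a + b := by ring
  have e3 : j + (a + b) = j + a + b := by ring
  rw [e2, e3]
  abel

/-- `T_k` relations -/
theorem pw_XT (x z : J) :
    (∀ m n, 2 * (uop k (pw x m) 1 * uop k (pw x (m + n)) z) = 2 * uop k (pw x (m + m + n)) z +
      uop k (pw x m) (pw x m) * uop k (pw x n) z) ∧
    ∀ m n, 2 * (uop k (pw x (m + n)) 1 * uop k (pw x n) z) = 2 * uop k (pw x (m + n + n)) z +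
      uop k (pw x n) (pw x n) * (uop k (pw x m) 1 * uop k z 1 - uop k (pw x m) z) := by
  have h := abs_XT (R := Module.End k J) end_two (fun m => uop k (pw x m) 1)
    (fun m => uop k (pw x m) z) ((2 : k)⁻¹ • uop k (pw x 1) (pw x 1))
    (fun m n => uop k (pw x m) (pw x n)) ?_ ?_ ?_ ?_ ?_ ?_
  · have e : uop k (pw x 0) z = uop k z 1 := uop_comm hJ _ _
    refine ⟨h.1, fun m n => ?_⟩
    rw [← e]; exact h.2 m n
  · intro m
    have h1 := pw_XX (k := k) hJ x 1 1 m 0
    have h2 := pw_XX (k := k) hJ x m 0 1 1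
    change uop k (pw x 1) (pw x 1) * uop k (pw x m) 1 = _ at h1
    change uop k (pw x m) 1 * uop k (pw x 1) (pw x 1) = _ at h2
    change (2 : k)⁻¹ • uop k (pw x 1) (pw x 1) * uop k (pw x m) 1 =
      uop k (pw x m) 1 * ((2 : k)⁻¹ • uop k (pw x 1) (pw x 1))
    rw [smul_mul_assoc, mul_smul_comm, h1, h2, uop_comm hJ (pw x (1 + 0))]
    have e1 : 1 + m = m + 1 := by ring
    rw [e1]
  · exact uop_11
  · exact uop_11
  · intro m
    have h1 := pw_XX (k := k) hJ x (m + 1) 0 1 0
    have h2 := pw_XX (k := k) hJ x 1 1 m 0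
    change uop k (pw x (m + 1)) 1 * uop k (pw x 1) 1 = _ at h1
    change uop k (pw x 1) (pw x 1) * uop k (pw x m) 1 = _ at h2
    change uop k (pw x (m + 1)) 1 * uop k (pw x 1) 1 = uop k (pw x (m + 2)) 1 +
      (2 : k)⁻¹ • uop k (pw x 1) (pw x 1) * uop k (pw x m) 1
    rw [smul_mul_assoc, h1, h2, uop_comm hJ (pw x (1 + 0))]
    have e1 : 1 + m = m + 1 := by ring
    have e2 : 1 + 0 = 1 := rfl
    rw [e1, e2, ← two_smul k (uop k (pw x (m + 1)) (pw x 1)), smul_smul,
      inv_mul_cancel₀ two_ne_zero, one_smul]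
    rfl
  · intro m n
    have h2 := pw_XX (k := k) hJ x 1 1 m n
    change uop k (pw x (m + 1)) (pw x (n + 1)) =
      (2 : k)⁻¹ • uop k (pw x 1) (pw x 1) * uop k (pw x m) (pw x n)
    rw [smul_mul_assoc, h2, uop_comm hJ (pw x (1 + n))]
    have e1 : 1 + m = m + 1 := by ring
    have e2 : 1 + n = n + 1 := by ring
    rw [e1, e2, ← two_smul k (uop k (pw x (m + 1)) (pw x (n + 1))), smul_smul,
      inv_mul_cancel₀ two_ne_zero, one_smul]
  · intro m n
    have h1 := S1 (k := k) hJ (pw x m) z (pw x n)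
    rw [pw_mul hJ k] at h1
    change uop k (pw x m) 1 * uop k (pw x n) z + uop k (pw x n) 1 * uop k (pw x m) z =
      2 * uop k (pw x (m + n)) z + uop k (pw x m) (pw x n) * uop k (pw x 0) z
    rw [h1, uop_comm hJ (pw x 0) z]
    rfl

theorem pw_TXX (x z : J) (i l : ℕ) : uop k (pw x i) z * uop k (pw x l) (pw x l) =
    2 * (uop k (pw x (i + l)) z * uop k (pw x l) 1 - uop k (pw x (i + 2 * l)) z) := by
  have h := abs_XT (R := (Module.End k J)ᵐᵒᵖ) ?_ (fun m => MulOpposite.op (uop k (pw x m) 1))
    (fun m => MulOpposite.op (uop k (pw x m) z))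
    (MulOpposite.op ((2 : k)⁻¹ • uop k (pw x 1) (pw x 1)))
    (fun m n => MulOpposite.op (uop k (pw x m) (pw x n))) ?_ ?_ ?_ ?_ ?_ ?_
  · have h1 := congrArg MulOpposite.unop (h.1 l i)
    simp only [MulOpposite.unop_mul, MulOpposite.unop_add, MulOpposite.unop_op] at h1
    have e2 : MulOpposite.unop (2 : (Module.End k J)ᵐᵒᵖ) = 2 := rfl
    have e3 : l + i = i + l := by ring
    have e4 : l + l + i = i + 2 * l := by ring
    rw [e2, e3, e4] at h1
    have e5 : uop k (pw x i) z * uop k (pw x l) (pw x l) =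
        uop k (pw x (i + l)) z * uop k (pw x l) 1 * 2 - uop k (pw x (i + 2 * l)) z * 2 := by
      rw [h1]; abel
    rw [e5]
    noncomm_ring
  · intro a ha
    have h1 := congrArg MulOpposite.unop ha
    rw [MulOpposite.unop_mul] at h1
    have h2 : (2 : Module.End k J) * MulOpposite.unop a = 0 := by
      rw [two_mul, ← mul_two]; exact h1
    exact MulOpposite.unop_injective (end_two _ h2)
  · intro m
    rw [← MulOpposite.op_mul, ← MulOpposite.op_mul]
    congr 1
    have h1 := pw_XX (k := k) hJ x 1 1 m 0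
    have h2 := pw_XX (k := k) hJ x m 0 1 1
    change uop k (pw x 1) (pw x 1) * uop k (pw x m) 1 = _ at h1
    change uop k (pw x m) 1 * uop k (pw x 1) (pw x 1) = _ at h2
    rw [smul_mul_assoc, mul_smul_comm, h1, h2, uop_comm hJ (pw x (1 + 0))]
    have e1 : 1 + m = m + 1 := by ring
    rw [e1]
  · change MulOpposite.op (uop k 1 1) = 2
    rw [uop_11]; rfl
  · change MulOpposite.op (uop k 1 1) = 2
    rw [uop_11]; rfl
  · intro m
    have h1 := pw_XX (k := k) hJ x 1 0 (m + 1) 0
    have h2 := pw_XX (k := k) hJ x m 0 1 1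
    change uop k (pw x 1) 1 * uop k (pw x (m + 1)) 1 = _ at h1
    change uop k (pw x m) 1 * uop k (pw x 1) (pw x 1) = _ at h2
    rw [← MulOpposite.op_mul, ← MulOpposite.op_mul, ← MulOpposite.op_add]
    congr 1
    change uop k (pw x 1) 1 * uop k (pw x (m + 1)) 1 = uop k (pw x (m + 2)) 1 +
      uop k (pw x m) 1 * ((2 : k)⁻¹ • uop k (pw x 1) (pw x 1))
    rw [mul_smul_comm, h1, h2]
    have e1 : 1 + (m + 1) = m + 2 := by ring
    have e2 : 0 + 1 = 1 := rfl
    have e3 : 0 + (m + 1) = m + 1 := by ring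
    rw [e1, e2, e3, ← two_smul k (uop k (pw x (m + 1)) (pw x 1)), smul_smul,
      inv_mul_cancel₀ two_ne_zero, one_smul, uop_comm hJ (pw x (1 + 0))]
    rfl
  · intro m n
    have h2 := pw_XX (k := k) hJ x m n 1 1
    rw [← MulOpposite.op_mul]
    congr 1
    rw [mul_smul_comm, h2, ← two_smul k (uop k (pw x (m + 1)) (pw x (n + 1))), smul_smul,
      inv_mul_cancel₀ two_ne_zero, one_smul]
  · intro m n
    have h1 := S2 (k := k) hJ (pw x m) z (pw x n)
    rw [pw_mul hJ k] at h1
    rw [← MulOpposite.op_mul, ← MulOpposite.op_mul, ← MulOpposite.op_mul, ← MulOpposite.op_add,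
      h1, MulOpposite.op_add]
    congr 1
    · rw [two_mul, two_mul, MulOpposite.op_add]
    · congr 1
      rw [uop_comm hJ z 1]; rfl

theorem uop_XYY (a c : J) : uop k c 1 * uop k a a =
    2 * (uop k c a * uop k a 1 - uop k c (a * a)) := by
  have h := S2 (k := k) hJ a c a
  rw [uop_comm hJ c a, uop_comm hJ c (a * a)]
  have e : uop k c 1 * uop k a a = uop k a c * uop k a 1 + uop k a c * uop k a 1 -
      2 * uop k (a * a) c := by rw [h]; abel
  rw [e]; noncomm_ring

theorem uop_e (x : J) (i j : ℕ) : uop k (pw x i) (pw x j) 1 = uop k (pw x (i + j)) (pw x 0) 1 := by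
  have e0 : pw x 0 = 1 := rfl
  rw [e0, uop_one]
  unfold uop
  rw [two_ap', two_ap']
  simp only [LinearMap.add_apply, LinearMap.sub_apply, Module.End.mul_apply,
    LinearMap.mulLeft_apply, mul_one]
  rw [pw_mul hJ k, pw_mul hJ k, add_comm j i]
  congr 1; abel

theorem uop_T (x z : J) (i n : ℕ) : uop k (pw x i) z (uop k (pw x n) 1 1) =
    (2 : k) • uop k (pw x (i + n)) z 1 := by
  rw [uop_one]
  unfold uop
  rw [two_ap', two_ap', two_ap']
  simp only [LinearMap.add_apply, LinearMap.sub_apply, Module.End.mul_apply,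
    LinearMap.mulLeft_apply, mul_one, map_smul]
  have h := congrArg (fun f : Module.End k J => f z) (pw_comm (k := k) hJ x i n)
  simp only [Module.End.mul_apply, LinearMap.mulLeft_apply] at h
  rw [jc hJ z (pw x n), h, pw_mul hJ k, jc hJ (pw x i * z) (pw x n), jc hJ z (pw x (i + n))]
  congr 2
  abel

end jord

theorem shirA {k J : Type*} [Field k] [CharZero k] [NonAssocRing J] [Module k J]
    [IsScalarTower k J J] [SMulCommClass k J J] (hJ : IsJord J) (x y : J) :
    ∃ S : TwoOps k J, S.e = 1 ∧ (∀ i j, S.X i j = uop k (pw x i) (pw x j)) ∧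
      (∀ i j, S.Y i j = uop k (pw y i) (pw y j)) ∧
      ∀ i j, S.T i j = uop k (pw x i) (pw y j) := by
  refine ⟨{
    X := fun i j => uop k (pw x i) (pw x j)
    Y := fun i j => uop k (pw y i) (pw y j)
    T := fun i j => uop k (pw x i) (pw y j)
    e := 1
    Xs := fun i j => uop_comm hJ _ _
    Ys := fun i j => uop_comm hJ _ _
    X00 := uop_11
    Y00 := uop_11
    T0 := fun i => rfl
    T0' := fun j => uop_comm hJ _ _
    XX := pw_XX hJ x
    YY := pw_XX hJ y
    XYY := ?_
    YXX := ?_
    TXX := fun i j l => pw_TXX hJ x _ i l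
    TYY := ?_
    XT := fun m n j => (pw_XT hJ x (pw y j)).1 m n
    XT' := fun m n j => (pw_XT hJ x (pw y j)).2 m n
    YT := ?_
    YT' := ?_
    eX := uop_e hJ x
    eY := uop_e hJ y
    TX := fun i j n => uop_T hJ x (pw y j) i n
    TY := ?_ }, rfl, fun _ _ => rfl, fun _ _ => rfl, fun _ _ => rfl⟩
  · intro m b
    have h := uop_XYY (k := k) hJ (pw y b) (pw x m)
    rw [pw_mul hJ k, ← two_mul b] at h
    exact h
  · intro m b
    have h := uop_XYY (k := k) hJ (pw x b) (pw y m)
    rw [pw_mul hJ k, ← two_mul b] at h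
    rw [uop_comm hJ (pw x b) (pw y m), uop_comm hJ (pw x (2 * b)) (pw y m)]
    exact h
  · intro i j l
    have h := pw_TXX (k := k) hJ y (pw x i) j l
    rw [uop_comm hJ (pw x i) (pw y j), uop_comm hJ (pw x i) (pw y (j + l)),
      uop_comm hJ (pw x i) (pw y (j + 2 * l))]
    exact h
  · intro m n j
    have h := (pw_XT (k := k) hJ y (pw x j)).1 m n
    rw [uop_comm hJ (pw x j) (pw y (m + n)), uop_comm hJ (pw x j) (pw y (m + m + n)),
      uop_comm hJ (pw x j) (pw y n)]
    exact h
  · intro m n j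
    have h := (pw_XT (k := k) hJ y (pw x j)).2 m n
    rw [uop_comm hJ (pw x j) (pw y n), uop_comm hJ (pw x j) (pw y (m + n + n)),
      uop_comm hJ (pw x j) (pw y m)]
    exact h
  · intro i j n
    have h := uop_T (k := k) hJ y (pw x i) j n
    rw [uop_comm hJ (pw x i) (pw y j), uop_comm hJ (pw x i) (pw y (j + n))]
    exact h

end Pool.Agent.Y515.KI
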