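import Pool.Agent.Y80.KI.DefsS

set_option autoImplicit false

open scoped BigOperators

/-! Shirshov's theorem: the elements `b(w)` attached to words in two letters
(`true` is `x`, `false` is `y`). -/

namespace Pool.Agent.Y515.KI

open Pool.Agent.Y80.KI

variable {k M : Type*} [Field k] [AddCommGroup M] [Module k M]

/-- powers of `x` -/
abbrev xs (i : ℕ) : List Bool := List.replicate i true

/-- powers of `y` -/
abbrev ys (i : ℕ) : List Bool := List.replicate i false

theorem ends (w : List Bool) : w = [] ∨ (∃ a, w = [a]) ∨ ∃ a u b, w = a :: (u ++ [b]) := by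
  rcases w with _ | ⟨a, w⟩
  · exact Or.inl rfl
  · rcases List.eq_nil_or_concat w with h | ⟨u, b, h⟩
    · exact Or.inr (Or.inl ⟨a, by rw [h]⟩)
    · exact Or.inr (Or.inr ⟨a, u, b, by rw [h]; simp⟩)

/-- the value on the word `x^i u y^j` -/
noncomputable def cc (S : TwoOps k M) (i : ℕ) (u : List Bool) (j : ℕ) : M :=
  match u with
  | [] => S.T i j S.e
  | true :: u => cc S (i + 1) u j
  | false :: u =>
    match h : u.reverse with
    | [] => cc S i [] (j + 1)
    | false :: r => cc S i (false :: r.reverse) (j + 1)
    | true :: r => S.T i j (cc S 1 r 1) - cc S (i + 1) r (j + 1)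
termination_by u.length
decreasing_by
  · simp
  · simp
  · have := congrArg List.length h
    simp at this
    simp [this]
  · have := congrArg List.length h
    simp at this
    simp [this]
  · have := congrArg List.length h
    simp at this
    simp [this]

theorem cc_nil (S : TwoOps k M) (i j : ℕ) : cc S i [] j = S.T i j S.e := by
  rw [cc]

theorem cc_true (S : TwoOps k M) (i : ℕ) (u : List Bool) (j : ℕ) :
    cc S i (true :: u) j = cc S (i + 1) u j := by
  rw [cc]

theorem cc_f (S : TwoOps k M) (i j : ℕ) : cc S i [false] j = cc S i [] (j + 1) := by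
  conv_lhs => rw [cc]
  rfl

theorem cc_ff (S : TwoOps k M) (i : ℕ) (u : List Bool) (j : ℕ) :
    cc S i (false :: (u ++ [false])) j = cc S i (false :: u) (j + 1) := by
  rw [cc]
  split
  · rename_i h; simp at h
  · rename_i r h
    simp at h
    rw [← h]; simp
  · rename_i r h; simp at h

theorem cc_ft (S : TwoOps k M) (i : ℕ) (u : List Bool) (j : ℕ) :
    cc S i (false :: (u ++ [true])) j =
      S.T i j (cc S 1 u.reverse 1) - cc S (i + 1) u.reverse (j + 1) := by
  rw [cc]
  split
  · rename_i h; simp at h
  · rename_i r h; simp at h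
  · rename_i r h
    simp at h
    rw [← h]

theorem cc_snoc (S : TwoOps k M) (u : List Bool) : ∀ i j : ℕ,
    cc S i (u ++ [false]) j = cc S i u (j + 1) := by
  induction u with
  | nil => intro i j; exact cc_f S i j
  | cons a u ih =>
    intro i j
    cases a
    · exact cc_ff S i u j
    · rw [List.cons_append, cc_true, cc_true, ih]

theorem cc_xs (S : TwoOps k M) (u : List Bool) (j : ℕ) : ∀ n i : ℕ,
    cc S i (xs n ++ u) j = cc S (i + n) u j := by
  intro n
  induction n with
  | zero => intro i; rfl
  | succ n ih =>
    intro i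
    have : xs (n + 1) ++ u = true :: (xs n ++ u) := by simp [xs, List.replicate_succ]
    rw [this, cc_true, ih]
    congr 1; ring

theorem cc_ys (S : TwoOps k M) (u : List Bool) (i : ℕ) : ∀ n j : ℕ,
    cc S i (u ++ ys n) j = cc S i u (j + n) := by
  intro n
  induction n with
  | zero => intro j; simp [ys]
  | succ n ih =>
    intro j
    have : u ++ ys (n + 1) = (u ++ ys n) ++ [false] := by simp [ys, List.replicate_succ']
    rw [this, cc_snoc, ih]
    congr 1; ring

/-- the values on all words -/
noncomputable def bb (S : TwoOps k M) : List Bool → M :=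
  List.bidirectionalRec (motive := fun _ => M) ((2 : k) • S.e)
    (fun a => if a then S.X 1 0 S.e else S.Y 1 0 S.e)
    (fun a u b' r => match a, b' with
      | true, true => (2 : k)⁻¹ • S.X 1 1 r
      | false, false => (2 : k)⁻¹ • S.Y 1 1 r
      | true, false => cc S 1 u 1
      | false, true => cc S 1 u.reverse 1)

theorem bb_nil (S : TwoOps k M) : bb S [] = (2 : k) • S.e := by
  unfold bb; rw [List.bidirectionalRec_nil]

theorem bb_t (S : TwoOps k M) : bb S [true] = S.X 1 0 S.e := by
  unfold bb; rw [List.bidirectionalRec_singleton]; rfl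

theorem bb_f (S : TwoOps k M) : bb S [false] = S.Y 1 0 S.e := by
  unfold bb; rw [List.bidirectionalRec_singleton]; rfl

theorem bb_tt (S : TwoOps k M) (u : List Bool) :
    bb S (true :: (u ++ [true])) = (2 : k)⁻¹ • S.X 1 1 (bb S u) := by
  unfold bb; rw [List.bidirectionalRec_cons_append]

theorem bb_ff (S : TwoOps k M) (u : List Bool) :
    bb S (false :: (u ++ [false])) = (2 : k)⁻¹ • S.Y 1 1 (bb S u) := by
  unfold bb; rw [List.bidirectionalRec_cons_append]

theorem bb_tf (S : TwoOps k M) (u : List Bool) :
    bb S (true :: (u ++ [false])) = cc S 1 u 1 := by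
  unfold bb; rw [List.bidirectionalRec_cons_append]

theorem bb_ft (S : TwoOps k M) (u : List Bool) :
    bb S (false :: (u ++ [true])) = cc S 1 u.reverse 1 := by
  unfold bb; rw [List.bidirectionalRec_cons_append]

theorem bb_rev (S : TwoOps k M) (w : List Bool) : bb S w.reverse = bb S w := by
  induction w using List.bidirectionalRec with
  | nil => rfl
  | singleton a => rfl
  | cons_append a u b' ih =>
    have e : (a :: (u ++ [b'])).reverse = b' :: (u.reverse ++ [a]) := by simp
    rw [e]
    cases a <;> cases b'
    · rw [bb_ff, bb_ff, ih]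
    · rw [bb_tf, bb_ft]
    · rw [bb_ft, bb_tf, List.reverse_reverse]
    · rw [bb_tt, bb_tt, ih]

theorem cc_eq (S : TwoOps k M) (i j : ℕ) (u : List Bool) :
    cc S (i + 1) u (j + 1) = bb S (xs (i + 1) ++ (u ++ ys (j + 1))) := by
  have : xs (i + 1) ++ (u ++ ys (j + 1)) = true :: ((xs i ++ (u ++ ys j)) ++ [false]) := by
    simp [xs, ys, List.replicate_succ (n := i), List.replicate_succ' (n := j)]
  rw [this, bb_tf, cc_xs, cc_ys]
  congr 1 <;> ring

/-- exchange of the two letters -/
def sw (S : TwoOps k M) : TwoOps k M where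
  X := S.Y
  Y := S.X
  T := fun i j => S.T j i
  e := S.e
  Xs := S.Ys
  Ys := S.Xs
  X00 := S.Y00
  Y00 := S.X00
  T0 := S.T0'
  T0' := S.T0
  XX := S.YY
  YY := S.XX
  XYY := fun m b => S.YXX m b
  YXX := fun m b => S.XYY m b
  TXX := fun i j l => S.TYY j i l
  TYY := fun i j l => S.TXX j i l
  XT := fun m n j => S.YT m n j
  XT' := fun m n j => S.YT' m n j
  YT := fun m n j => S.XT m n j
  YT' := fun m n j => S.XT' m n j
  eX := S.eY
  eY := S.eX
  TX := fun i j n => S.TY j i n
  TY := fun i j n => S.TX j i n

theorem cc_sw (S : TwoOps k M) : ∀ (n : ℕ) (u : List Bool) (i j : ℕ), u.length = n →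
    cc (sw S) j ((u.map not).reverse) i = cc S i u j := by
  intro n
  induction n using Nat.strong_induction_on with
  | _ n ih =>
  intro u i j hu
  rcases u with _ | ⟨a, u⟩
  · rw [List.map_nil, List.reverse_nil, cc_nil, cc_nil]; rfl
  cases a
  · rcases List.eq_nil_or_concat u with h | ⟨u, b', h⟩
    · subst h
      rw [cc_f, cc_nil]
      change cc (sw S) j [true] i = _
      rw [cc_true, cc_nil]; rfl
    · rw [List.concat_eq_append] at h
      subst h
      have hl : u.length + 2 = n := by rw [← hu]; simp
      cases b'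
      · rw [cc_ff, ← ih (u.length + 1) (by omega) (false :: u) i (j + 1) (by simp)]
        have : ((false :: (u ++ [false])).map not).reverse =
            true :: (((false :: u).map not).reverse) := by simp
        rw [this, cc_true]
      · rw [cc_ft, ← ih u.length (by omega) u.reverse 1 1 (by simp),
          ← ih u.length (by omega) u.reverse (i + 1) (j + 1) (by simp)]
        have : ((false :: (u ++ [true])).map not).reverse =
            false :: ((u.map not).reverse ++ [true]) := by simp
        rw [this, cc_ft]
        have h2 : (u.reverse.map not).reverse = (u.map not).reverse.reverse := by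
          simp
        rw [h2]; rfl
  · have hl : u.length + 1 = n := by rw [← hu]; simp
    rw [cc_true, ← ih u.length (by omega) u (i + 1) j rfl]
    have : ((true :: u).map not).reverse = (u.map not).reverse ++ [false] := by simp
    rw [this, cc_snoc]

theorem bb_sw (S : TwoOps k M) (w : List Bool) : bb (sw S) (w.map not) = bb S w := by
  induction w using List.bidirectionalRec with
  | nil => rw [List.map_nil, bb_nil, bb_nil]; rfl
  | singleton a =>
    cases a
    · change bb (sw S) [true] = _
      rw [bb_t, bb_f]; rfl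
    · change bb (sw S) [false] = _
      rw [bb_t, bb_f]; rfl
  | cons_append a u b' ih =>
    have e : (a :: (u ++ [b'])).map not = (!a) :: (u.map not ++ [!b']) := by simp
    rw [e]
    cases a <;> cases b'
    · change bb (sw S) (true :: (u.map not ++ [true])) = _
      rw [bb_tt, bb_ff, ih]; rfl
    · change bb (sw S) (true :: (u.map not ++ [false])) = _
      rw [bb_tf, bb_ft, ← cc_sw S _ u.reverse 1 1 rfl]
      congr 1; simp
    · change bb (sw S) (false :: (u.map not ++ [true])) = _
      rw [bb_tf, bb_ft, ← cc_sw S _ u 1 1 rfl]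
    · change bb (sw S) (false :: (u.map not ++ [false])) = _
      rw [bb_tt, bb_ff, ih]; rfl

/-- the claim: `T i j b(w) = b(x^i w y^j) + b(y^j w x^i)` -/
def PP (S : TwoOps k M) (i j : ℕ) (w : List Bool) : Prop :=
  S.T i j (bb S w) = bb S (xs i ++ (w ++ ys j)) + bb S (xs i ++ (w.reverse ++ ys j))

theorem PP_rev (S : TwoOps k M) (i j : ℕ) (w : List Bool) (h : PP S i j w) :
    PP S i j w.reverse := by
  unfold PP at h ⊢
  rw [bb_rev, List.reverse_reverse, h, add_comm]

theorem bb_flip (S : TwoOps k M) (i j : ℕ) (w : List Bool) :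
    bb S (ys j ++ (w ++ xs i)) = bb S (xs i ++ (w.reverse ++ ys j)) := by
  rw [← bb_rev S (xs i ++ (w.reverse ++ ys j))]
  congr 1
  simp

theorem PP_sw (S : TwoOps k M) (i j : ℕ) (w : List Bool) (h : PP (sw S) j i (w.map not)) :
    PP S i j w := by
  unfold PP at h ⊢
  have e1 : xs j ++ (w.map not ++ ys i) = (ys j ++ (w ++ xs i)).map not := by simp
  have e2 : xs j ++ ((w.map not).reverse ++ ys i) = (ys j ++ (w.reverse ++ xs i)).map not := by
    simp
  rw [e1, e2, bb_sw, bb_sw, bb_sw, bb_flip, bb_flip, List.reverse_reverse] at h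
  rw [add_comm]
  exact h

theorem two_ap (v : M) : (2 : Module.End k M) v = (2 : k) • v := by
  rw [← one_add_one_eq_two, LinearMap.add_apply, Module.End.one_apply, two_smul]

variable [CharZero k]

theorem two_cancel {v w : M} (h : (2 : k) • v = (2 : k) • w) : v = w :=
  smul_right_injective M (two_ne_zero (α := k)) h

theorem half_two (v : M) : (2 : k) • (2 : k)⁻¹ • v = v := by
  rw [smul_smul, mul_inv_cancel₀ two_ne_zero, one_smul]

theorem bb_XX (S : TwoOps k M) (u : List Bool) : ∀ m : ℕ,
    S.X m m (bb S u) = (2 : k) • bb S (xs m ++ (u ++ xs m)) := by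
  intro m
  induction m with
  | zero => rw [S.X00, two_ap]; simp [xs]
  | succ m ih =>
    have e : xs (m + 1) ++ (u ++ xs (m + 1)) = true :: ((xs m ++ (u ++ xs m)) ++ [true]) := by
      have h1 : xs (m + 1) = true :: xs m := List.replicate_succ
      have h2 : xs (m + 1) = xs m ++ [true] := List.replicate_succ'
      nth_rewrite 1 [h1]
      rw [h2]; simp
    rw [e, bb_tt, half_two]
    apply two_cancel (k := k)
    rw [← map_smul (S.X 1 1), ← ih]
    have h := congrArg (fun L => L (bb S u)) (S.XX 1 1 m m)
    simp only [Module.End.mul_apply, LinearMap.add_apply] at h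
    rw [h, two_smul, add_comm 1 m]

theorem bb_YY (S : TwoOps k M) (u : List Bool) : S.Y 1 1 (bb S u) =
    (2 : k) • bb S (false :: (u ++ [false])) := by
  rw [bb_ff, half_two]

theorem bb_X1 (S : TwoOps k M) (u : List Bool) : S.X 1 1 (bb S u) =
    (2 : k) • bb S (true :: (u ++ [true])) := by
  rw [bb_tt, half_two]

theorem bb_xs (S : TwoOps k M) : ∀ i : ℕ, bb S (xs i) = S.X i 0 S.e := by
  intro i
  induction i using Nat.strong_induction_on with
  | _ i ih =>
  rcases i with _ | _ | i
  · change bb S [] = _
    rw [bb_nil, S.X00, two_ap]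
  · exact bb_t S
  · have e : xs (i + 1 + 1) = true :: (xs i ++ [true]) := by
      have h1 : xs (i + 1 + 1) = true :: xs (i + 1) := List.replicate_succ
      have h2 : xs (i + 1) = xs i ++ [true] := List.replicate_succ'
      rw [h1, h2]
    apply two_cancel (k := k)
    rw [e, ← bb_X1, ih i (by omega)]
    have h := congrArg (fun L => L S.e) (S.XX 1 1 i 0)
    simp only [Module.End.mul_apply, LinearMap.add_apply] at h
    rw [h, S.Xs (1 + 0) (1 + i), ← two_smul k, S.eX]
    congr 3; ring

theorem bb_ys (S : TwoOps k M) (j : ℕ) : bb S (ys j) = S.Y j 0 S.e := by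
  have h := bb_xs (sw S) j
  have e : xs j = (ys j).map not := by simp
  rw [e, bb_sw] at h
  exact h

theorem bb_xy (S : TwoOps k M) (i j : ℕ) : bb S (xs i ++ ys j) = S.T i j S.e := by
  rcases i with _ | i
  · rw [S.T0']; exact bb_ys S j
  rcases j with _ | j
  · rw [S.T0]
    have : xs (i + 1) ++ ys 0 = xs (i + 1) := by simp [ys]
    rw [this]; exact bb_xs S _
  · have h := cc_eq S i j []
    rw [cc_nil] at h
    exact h.symm

theorem star (S : TwoOps k M) (N : ℕ) (ih : ∀ (i j : ℕ) (w : List Bool), i + j + w.length < N →
    PP S i j w) (m c l : ℕ) (v : List Bool) (hm : 1 ≤ m) (hc : 1 ≤ c)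
    (hN : m + c + v.length + l ≤ N) :
    S.X m 0 (S.T c l (bb S v)) = S.T (m + c) l (bb S v) +
      (bb S (xs c ++ (v ++ (ys l ++ xs m))) + bb S (xs c ++ (v.reverse ++ (ys l ++ xs m)))) := by
  apply two_cancel (k := k)
  rcases le_total m c with h | h
  · obtain ⟨n, rfl⟩ := Nat.exists_eq_add_of_le h
    have h1 := congrArg (fun L => L (bb S v)) (S.XT m n l)
    simp only [two_ap, Module.End.mul_apply, LinearMap.add_apply] at h1
    have h2 := ih n l v (by omega)
    unfold PP at h2
    rw [h1, h2, map_add, bb_XX, bb_XX, smul_add, smul_add, ← add_assoc m m n]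
    congr 3
    · congr 1
      simp only [List.append_assoc]
      rw [← List.append_assoc (xs m) (xs n), List.replicate_append_replicate]
    · congr 1
      simp only [List.append_assoc]
      rw [← List.append_assoc (xs m) (xs n), List.replicate_append_replicate]
  · obtain ⟨n, rfl⟩ := Nat.exists_eq_add_of_le' h
    have h1 := congrArg (fun L => L (bb S v)) (S.XT' n c l)
    simp only [two_ap, Module.End.mul_apply, LinearMap.add_apply, LinearMap.sub_apply] at h1
    have h2 := ih 0 l v (by omega)
    have h3 := ih n l v (by omega)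
    have h4 := ih n 0 (v ++ ys l) (by simp; omega)
    have h5 := ih n 0 (v.reverse ++ ys l) (by simp; omega)
    unfold PP at h2 h3 h4 h5
    rw [S.T0'] at h2
    rw [S.T0] at h4 h5
    rw [h1, h2, h3, map_add (S.X n 0)]
    change _ + S.X c c (S.X n 0 (bb S (v ++ ys l)) + S.X n 0 (bb S (v.reverse ++ ys l)) - _) = _
    rw [h4, h5]
    have e1 : xs n ++ ((v ++ ys l) ++ ys 0) = xs n ++ (v ++ ys l) := by simp [ys]
    have e2 : xs n ++ ((v.reverse ++ ys l) ++ ys 0) = xs n ++ (v.reverse ++ ys l) := by simp [ys]
    have e3 : xs n ++ ((v ++ ys l).reverse ++ ys 0) = xs n ++ (ys l ++ v.reverse) := by simp [ys]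
    have e4 : xs n ++ ((v.reverse ++ ys l).reverse ++ ys 0) = xs n ++ (ys l ++ v) := by
      simp [ys]
    rw [e1, e2, e3, e4]
    have e5 : bb S (xs n ++ (v ++ ys l)) + bb S (xs n ++ (ys l ++ v.reverse)) +
        (bb S (xs n ++ (v.reverse ++ ys l)) + bb S (xs n ++ (ys l ++ v))) -
        (bb S (xs n ++ (v ++ ys l)) + bb S (xs n ++ (v.reverse ++ ys l))) =
        bb S (xs n ++ (ys l ++ v.reverse)) + bb S (xs n ++ (ys l ++ v)) := by abel
    have f1 : bb S (xs c ++ ((xs n ++ (ys l ++ v.reverse)) ++ xs c)) =
        bb S (xs c ++ (v ++ (ys l ++ xs (n + c)))) := by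
      rw [← bb_rev S (xs c ++ ((xs n ++ (ys l ++ v.reverse)) ++ xs c))]
      congr 1
      simp only [List.append_assoc, List.reverse_append, List.reverse_reverse,
        List.reverse_replicate]
      rw [List.replicate_append_replicate]
    have f2 : bb S (xs c ++ ((xs n ++ (ys l ++ v)) ++ xs c)) =
        bb S (xs c ++ (v.reverse ++ (ys l ++ xs (n + c)))) := by
      rw [← bb_rev S (xs c ++ ((xs n ++ (ys l ++ v)) ++ xs c))]
      congr 1
      simp only [List.append_assoc, List.reverse_append, List.reverse_replicate]
      rw [List.replicate_append_replicate]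
    rw [e5, map_add, bb_XX, bb_XX, f1, f2, smul_add, smul_add]

theorem lemC (S : TwoOps k M) (N : ℕ) (ih : ∀ (i j : ℕ) (w : List Bool), i + j + w.length < N →
    PP S i j w) (m : ℕ) (hm : 1 ≤ m) : ∀ (n : ℕ) (v : List Bool) (c l : ℕ), v.length = n →
    m + (c + 1) + v.length + (l + 1) ≤ N →
    S.X m 0 (cc S (c + 1) v (l + 1)) = cc S (m + c + 1) v (l + 1) +
      bb S (xs (c + 1) ++ (v ++ (ys (l + 1) ++ xs m))) := by
  intro n
  induction n using Nat.strong_induction_on with
  | _ n ihn =>
  intro v c l hv hN
  rcases v with _ | ⟨a, v⟩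
  · have h := star S N ih m (c + 1) (l + 1) [] hm (by omega) hN
    rw [bb_nil] at h
    simp only [map_smul] at h
    apply two_cancel (k := k)
    rw [cc_nil, cc_nil, h, smul_add, two_smul k (bb S _)]
    rfl
  cases a
  · rcases List.eq_nil_or_concat v with h | ⟨u, b', h⟩
    · subst h
      simp only [List.length_cons, List.length_nil] at hv hN
      rw [cc_f, cc_f, ihn 0 (by omega) [] c (l + 1) rfl (by simp; omega)]
      congr 2
    · rw [List.concat_eq_append] at h
      subst h
      have hl : u.length + 2 = n := by rw [← hv]; simp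
      simp only [List.length_cons, List.length_append, List.length_nil] at hN
      cases b'
      · rw [cc_ff, cc_ff, ihn (u.length + 1) (by omega) (false :: u) c (l + 1) (by simp)
          (by simp; omega)]
        congr 2
        have h1 : ys (l + 1 + 1) = false :: ys (l + 1) := List.replicate_succ
        rw [h1]; simp
      · have h1 := star S N ih m (c + 1) (l + 1) (false :: (u ++ [true])) hm (by omega)
          (by simp; omega)
        rw [bb_ft] at h1
        rw [cc_ft, cc_ft, map_sub, h1, ihn u.length (by omega) u.reverse (c + 1) (l + 1) (by simp)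
          (by simp; omega)]
        have e1 : xs (c + 1) ++ ((false :: (u ++ [true])).reverse ++ (ys (l + 1) ++ xs m)) =
            xs (c + 1 + 1) ++ (u.reverse ++ (ys (l + 1 + 1) ++ xs m)) := by
          have h1 : ys (l + 1 + 1) = false :: ys (l + 1) := List.replicate_succ
          have h2 : xs (c + 1 + 1) = xs (c + 1) ++ [true] := List.replicate_succ'
          rw [h1, h2]; simp
        have e2 : m + (c + 1) + 1 = m + c + 1 + 1 := by ring
        have e3 : m + (c + 1) = m + c + 1 := by ring
        rw [e1, e2, e3]
        abel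
  · simp only [List.length_cons] at hv hN
    rw [cc_true, cc_true, ihn v.length (by omega) v (c + 1) l rfl (by omega)]
    have h2 : xs (c + 1 + 1) = xs (c + 1) ++ [true] := List.replicate_succ'
    rw [h2]
    simp only [List.append_assoc, List.cons_append, List.nil_append]
    congr 1

theorem lemD (S : TwoOps k M) (N : ℕ) (ih : ∀ (i j : ℕ) (w : List Bool), i + j + w.length < N →
    PP S i j w) (m : ℕ) (u : List Bool) (hN : m + 1 + (u.length + 2) = N) :
    PP S (m + 1) 0 (true :: (u ++ [false])) := by
  have h := lemC S N ih (m + 1) (by omega) _ u 0 0 rfl (by omega)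
  unfold PP
  rw [S.T0, bb_tf, h]
  congr 1
  · have h1 := cc_eq S (m + 1) 0 u
    have e : xs (m + 1 + 1) ++ (u ++ ys (0 + 1)) =
        xs (m + 1) ++ ((true :: (u ++ [false])) ++ ys 0) := by
      have h2 : xs (m + 1 + 1) = xs (m + 1) ++ [true] := List.replicate_succ'
      rw [h2]; simp [ys]
    rw [e] at h1
    rw [← h1]
  · rw [← bb_rev]
    congr 1
    simp [xs, ys]

theorem all (N : ℕ) : ∀ (S : TwoOps k M) (i j : ℕ) (w : List Bool), i + j + w.length = N →
    PP S i j w := by
  induction N using Nat.strong_induction_on with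
  | _ N ihN =>
  intro S
  have ih : ∀ (S : TwoOps k M) (i j : ℕ) (w : List Bool), i + j + w.length < N → PP S i j w :=
    fun S i j w h => ihN _ h S i j w rfl
  have key : ∀ (i j : ℕ) (u : List Bool), i + j + (u.length + 2) = N →
      PP S i j (true :: (u ++ [false])) := by
    intro i j u hN
    rcases i with _ | i
    · rcases j with _ | j
      · unfold PP
        rw [S.T0, S.X00, two_ap, two_smul]
        have e1 : xs 0 ++ ((true :: (u ++ [false])) ++ ys 0) = true :: (u ++ [false]) := by
          simp [xs, ys]
        have e2 : xs 0 ++ ((true :: (u ++ [false])).reverse ++ ys 0) =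
          (true :: (u ++ [false])).reverse := by simp [xs, ys]
        rw [e1, e2, bb_rev]
      · apply PP_sw
        have e : (true :: (u ++ [false])).map not =
            (true :: ((u.map not).reverse ++ [false])).reverse := by simp
        rw [e]
        apply PP_rev
        exact lemD (sw S) N (ih (sw S)) j _ (by simp; omega)
    · rcases j with _ | j
      · exact lemD S N (ih S) i u (by omega)
      · unfold PP
        have e2 : (true :: (u ++ [false])).reverse = false :: (u.reverse ++ [true]) := by simp
        rw [e2, bb_tf, ← cc_eq, ← cc_eq, cc_true, cc_snoc, cc_ft, List.reverse_reverse]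
        abel
  intro i j w hw
  generalize hn : w.length = n
  induction n using Nat.strong_induction_on generalizing i j w with
  | _ n ihn =>
  rcases ends w with rfl | ⟨a, rfl⟩ | ⟨a, u, b', rfl⟩
  · unfold PP
    rw [List.reverse_nil, List.nil_append, bb_xy, bb_nil, map_smul, two_smul]
  · cases a
    · unfold PP
      have h1 : xs i ++ ([false] ++ ys j) = xs i ++ ys (j + 1) := by
        have : ys (j + 1) = false :: ys j := List.replicate_succ
        rw [this]; simp
      rw [List.reverse_singleton, h1, bb_xy, bb_f, S.TY, two_smul]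
    · unfold PP
      have h1 : xs i ++ ([true] ++ ys j) = xs (i + 1) ++ ys j := by
        have : xs (i + 1) = xs i ++ [true] := List.replicate_succ'
        rw [this]; simp
      rw [List.reverse_singleton, h1, bb_xy, bb_t, S.TX, two_smul]
  · have hl : u.length + 2 = n := by rw [← hn]; simp
    have hN : i + j + (u.length + 2) = N := by rw [hl, ← hn]; exact hw
    cases a <;> cases b'
    · -- y u y
      have h0 : PP S 0 1 u := ih S 0 1 u (by omega)
      have h1 : PP S i (j + 1) (u ++ [false]) :=
        ihn (u.length + 1) (by omega) i (j + 1) _ (by simp; omega) (by simp)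
      have h2 : PP S i (j + 1) (u.reverse ++ [false]) :=
        ihn (u.length + 1) (by omega) i (j + 1) _ (by simp; omega) (by simp)
      have h3 : PP S i (j + 2) u := ihn u.length (by omega) i (j + 2) _ (by omega) rfl
      unfold PP at h0 h1 h2 h3 ⊢
      rw [S.T0'] at h0
      apply two_cancel (k := k)
      rw [← map_smul, ← bb_YY]
      have h4 := congrArg (fun L => L (bb S u)) (S.TYY i j 1)
      simp only [two_ap, Module.End.mul_apply, LinearMap.sub_apply, mul_one] at h4
      rw [h4, h0, h3]
      congr 1
      have e1 : xs 0 ++ (u ++ ys 1) = u ++ [false] := by simp [xs, ys]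
      have e2 : xs 0 ++ (u.reverse ++ ys 1) = u.reverse ++ [false] := by simp [xs, ys]
      rw [e1, e2, map_add, h1, h2]
      have h5 : ys (j + 2) = false :: ys (j + 1) := List.replicate_succ
      have h6 : ys (j + 1) = false :: ys j := List.replicate_succ
      rw [h5]
      simp only [List.append_assoc, List.cons_append, List.nil_append, List.reverse_append,
        List.reverse_cons, List.reverse_nil, List.reverse_reverse, ← h6]
      abel
    · -- y u x
      have e : false :: (u ++ [true]) = (true :: (u.reverse ++ [false])).reverse := by simp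
      rw [e]
      exact PP_rev S i j _ (key i j _ (by simp; omega))
    · exact key i j u hN
    · -- x u x
      have h0 : PP S 1 0 u := ih S 1 0 u (by omega)
      have h1 : PP S (i + 1) j (true :: u) :=
        ihn (u.length + 1) (by omega) (i + 1) j _ (by simp; omega) (by simp)
      have h2 : PP S (i + 1) j (true :: u.reverse) :=
        ihn (u.length + 1) (by omega) (i + 1) j _ (by simp; omega) (by simp)
      have h3 : PP S (i + 2) j u := ihn u.length (by omega) (i + 2) j _ (by omega) rfl
      unfold PP at h0 h1 h2 h3 ⊢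
      rw [S.T0] at h0
      apply two_cancel (k := k)
      rw [← map_smul, ← bb_X1]
      have h4 := congrArg (fun L => L (bb S u)) (S.TXX i j 1)
      simp only [two_ap, Module.End.mul_apply, LinearMap.sub_apply, mul_one] at h4
      rw [h4, h0, h3]
      congr 1
      have e1 : xs 1 ++ (u ++ ys 0) = true :: u := by simp [xs, ys]
      have e2 : xs 1 ++ (u.reverse ++ ys 0) = true :: u.reverse := by simp [xs, ys]
      rw [e1, e2, map_add, h1, h2]
      have h5 : xs (i + 2) = xs (i + 1) ++ [true] := List.replicate_succ'
      have h6 : xs (i + 1) = xs i ++ [true] := List.replicate_succ'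
      rw [h5, h6]
      simp only [List.append_assoc, List.cons_append, List.nil_append, List.reverse_append,
        List.reverse_cons, List.reverse_nil, List.reverse_reverse]
      abel

theorem shirB {k M : Type*} [Field k] [CharZero k] [AddCommGroup M] [Module k M]
    (S : TwoOps k M) : ∃ b : List Bool → M, b [] = (2 : k) • S.e ∧ (∀ w, b w.reverse = b w) ∧
      (∀ w, S.X 1 0 (b w) = b (true :: w) + b (w ++ [true])) ∧
      (∀ w, S.Y 1 0 (b w) = b (false :: w) + b (w ++ [false])) ∧
      (∀ w, S.X 1 1 (b w) = (2 : k) • b (true :: (w ++ [true]))) ∧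
      (∀ w, S.Y 1 1 (b w) = (2 : k) • b (false :: (w ++ [false]))) ∧
      ∀ w, S.T 1 1 (b w) = b (true :: (w ++ [false])) + b (false :: (w ++ [true])) := by
  refine ⟨bb S, bb_nil S, bb_rev S, fun w => ?_, fun w => ?_, bb_X1 S, bb_YY S, fun w => ?_⟩
  · have h := all _ S 1 0 w rfl
    unfold PP at h
    rw [S.T0] at h
    rw [h]
    congr 1
    · congr 1; simp [xs, ys]
    · rw [← bb_rev]; congr 1; simp [xs, ys]
  · have h := all _ S 0 1 w rfl
    unfold PP at h
    rw [S.T0'] at h
    rw [h, add_comm]
    congr 1
    · rw [← bb_rev]; congr 1; simp [xs, ys]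
  · have h := all _ S 1 1 w rfl
    unfold PP at h
    rw [h]
    congr 1
    rw [← bb_rev S (false :: (w ++ [true]))]
    simp [xs, ys]

end Pool.Agent.Y515.KI
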