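import Pool.Agent.Y515.KI.ShirA
import Pool.Agent.Y515.KI.ShirB

set_option autoImplicit false

open scoped BigOperators

/-! Shirshov's theorem as a dimension bound: the component of degree `n` of the free Jordan algebra
on two generators has dimension at most `(2 ^ n + 2 ^ ⌈n / 2⌉) / 2`. -/

namespace Pool.Agent.Y515.KI

open Pool.Agent.Y80.KI Pool.Agent.Y80.KM

section unit

variable {k A : Type*} [Field k] [NonUnitalNonAssocRing A] [Module k A] [IsScalarTower k A A]
  [SMulCommClass k A A]

instance unitTower : IsScalarTower k (Unitization k A) (Unitization k A) := ⟨fun c x y => by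
  simp only [smul_eq_mul]
  ext
  · simp [mul_assoc]
  · simp only [Unitization.snd_mul, Unitization.snd_smul, Unitization.fst_smul, smul_mul_assoc,
      smul_add, smul_smul, smul_eq_mul]
    rw [mul_comm y.fst c]⟩

instance unitComm : SMulCommClass k (Unitization k A) (Unitization k A) := ⟨fun c x y => by
  simp only [smul_eq_mul]
  ext
  · simp only [Unitization.fst_mul, Unitization.fst_smul, smul_eq_mul]; ring
  · simp only [Unitization.snd_mul, Unitization.snd_smul, Unitization.fst_smul, mul_smul_comm,
      smul_add, smul_smul, smul_eq_mul]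
    rw [mul_comm x.fst c]⟩

theorem isJord_unit (hA : IsJord A) : IsJord (Unitization k A) := by
  intro u v
  constructor
  · ext
    · simp only [Unitization.fst_mul]; ring
    · simp only [Unitization.snd_mul]
      rw [(hA u.snd v.snd).1]; abel
  · ext
    · simp only [Unitization.fst_mul]; ring
    · simp only [Unitization.snd_mul, Unitization.fst_mul]
      set s := u.fst
      set t := v.fst
      set a := u.snd
      set b := v.snd
      have h1 := (hA a b).2
      have h2 : a * b * a = a * (b * a) := by
        rw [(hA a b).1, (hA (b * a) a).1]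
      have h3 : a * a * a = a * (a * a) := (hA (a * a) a).1
      simp only [mul_add, add_mul, smul_mul_assoc, mul_smul_comm, smul_add, smul_smul, h1, h2, h3]
      module

end unit

section maps

variable {k J : Type*} [Field k] [CharZero k] [NonAssocRing J] [Module k J]
  [IsScalarTower k J J] [SMulCommClass k J J]

/-- the span of the elements `b(w)` of length `m` -/
def Bs (k : Type*) {J : Type*} [Field k] [NonAssocRing J] [Module k J] (b : List Bool → J)
    (m : ℕ) : Submodule k J := Submodule.span k {z | ∃ w : List Bool, w.length = m ∧ z = b w}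

/-- operators of degree `r` -/
def Mp (k : Type*) {J : Type*} [Field k] [NonAssocRing J] [Module k J] (b : List Bool → J)
    (r : ℕ) : Submodule k (Module.End k J) where
  carrier := {L | ∀ m, ∀ z ∈ Bs k b m, L z ∈ Bs k b (m + r)}
  add_mem' := by
    intro L L' h h' m z hz
    exact add_mem (h m z hz) (h' m z hz)
  zero_mem' := by
    intro m z _
    exact zero_mem _
  smul_mem' := by
    intro c L h m z hz
    exact Submodule.smul_mem _ c (h m z hz)

omit [CharZero k] [IsScalarTower k J J] [SMulCommClass k J J] in
theorem Mp_mul {b : List Bool → J} {r s : ℕ} {L L' : Module.End k J} (h : L ∈ Mp k b r)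
    (h' : L' ∈ Mp k b s) : L * L' ∈ Mp k b (r + s) := by
  intro m z hz
  have := h _ _ (h' m z hz)
  rw [add_assoc, add_comm s r] at this
  exact this

omit [CharZero k] [IsScalarTower k J J] [SMulCommClass k J J] in
theorem Mp_of {b : List Bool → J} {r : ℕ} {L : Module.End k J}
    (h : ∀ w : List Bool, L (b w) ∈ Bs k b (w.length + r)) : L ∈ Mp k b r := by
  intro m z hz
  have : Bs k b m ≤ (Bs k b (m + r)).comap L := by
    refine Submodule.span_le.2 ?_
    rintro _ ⟨w, hw, rfl⟩
    rw [SetLike.mem_coe, Submodule.mem_comap, ← hw]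
    exact h w
  exact this hz

omit [CharZero k] [IsScalarTower k J J] [SMulCommClass k J J] in
theorem Bs_mem {b : List Bool → J} (w : List Bool) : b w ∈ Bs k b w.length :=
  Submodule.subset_span ⟨w, rfl, rfl⟩

theorem vals (hJ : IsJord J) (x y : J) (b : List Bool → J) (S : TwoOps k J)
    (hX : ∀ i j, S.X i j = uop k (pw x i) (pw x j))
    (hY : ∀ i j, S.Y i j = uop k (pw y i) (pw y j))
    (hT : ∀ i j, S.T i j = uop k (pw x i) (pw y j))
    (h1 : ∀ w, S.X 1 0 (b w) = b (true :: w) + b (w ++ [true]))
    (h2 : ∀ w, S.Y 1 0 (b w) = b (false :: w) + b (w ++ [false]))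
    (h3 : ∀ w, S.X 1 1 (b w) = (2 : k) • b (true :: (w ++ [true])))
    (h4 : ∀ w, S.Y 1 1 (b w) = (2 : k) • b (false :: (w ++ [false])))
    (h5 : ∀ w, S.T 1 1 (b w) = b (true :: (w ++ [false])) + b (false :: (w ++ [true])))
    (v : FreeMagma (Fin 2) → J) (v0 : v (.of 0) = x) (v1 : v (.of 1) = y)
    (vm : ∀ p q, v (p * q) = v p * v q) :
    ∀ n w, w.length = n → LL k (v w) ∈ Mp k b n := by
  have px0 : pw x 0 = 1 := rfl
  have px1 : pw x 1 = x := mul_one x
  have py0 : pw y 0 = 1 := rfl
  have py1 : pw y 1 = y := mul_one y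
  have half : ∀ L : Module.End k J, L = (2 : k)⁻¹ • (2 * L) := by
    intro L
    rw [two_mul, ← two_smul k L, smul_smul, inv_mul_cancel₀ two_ne_zero, one_smul]
  have mX : S.X 1 0 ∈ Mp k b 1 := Mp_of fun w => by
    rw [h1]
    refine add_mem ?_ ?_
    · exact Bs_mem (true :: w)
    · have := Bs_mem (k := k) (b := b) (w ++ [true])
      simpa using this
  have mY : S.Y 1 0 ∈ Mp k b 1 := Mp_of fun w => by
    rw [h2]
    refine add_mem ?_ ?_
    · exact Bs_mem (false :: w)
    · have := Bs_mem (k := k) (b := b) (w ++ [false])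
      simpa using this
  have mXX : S.X 1 1 ∈ Mp k b 2 := Mp_of fun w => by
    rw [h3]
    refine Submodule.smul_mem _ _ ?_
    have := Bs_mem (k := k) (b := b) (true :: (w ++ [true]))
    simpa using this
  have mYY : S.Y 1 1 ∈ Mp k b 2 := Mp_of fun w => by
    rw [h4]
    refine Submodule.smul_mem _ _ ?_
    have := Bs_mem (k := k) (b := b) (false :: (w ++ [false]))
    simpa using this
  have mT : S.T 1 1 ∈ Mp k b 2 := Mp_of fun w => by
    rw [h5]
    refine add_mem ?_ ?_
    · have := Bs_mem (k := k) (b := b) (true :: (w ++ [false]))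
      simpa using this
    · have := Bs_mem (k := k) (b := b) (false :: (w ++ [true]))
      simpa using this
  rw [hX, px0, px1, uop_one] at mX
  rw [hY, py0, py1, uop_one] at mY
  rw [hX, px1] at mXX
  rw [hY, py1] at mYY
  rw [hT, px1, py1] at mT
  have lx : LL k x ∈ Mp k b 1 := by
    rw [half (LL k x)]; exact Submodule.smul_mem _ _ mX
  have ly : LL k y ∈ Mp k b 1 := by
    rw [half (LL k y)]; exact Submodule.smul_mem _ _ mY
  have prod : ∀ p q : J, LL k p ∈ Mp k b 1 → LL k q ∈ Mp k b 1 → uop k p q ∈ Mp k b 2 →
      LL k (p * q) ∈ Mp k b 2 := by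
    intro p q hp hq hpq
    have e : LL k (p * q) = LL k p * LL k q + LL k q * LL k p - (2 : k)⁻¹ • uop k p q := by
      have h6 : uop k p q = 2 * (LL k p * LL k q + LL k q * LL k p - LL k (p * q)) := rfl
      rw [h6, ← half (LL k p * LL k q + LL k q * LL k p - LL k (p * q))]
      abel
    have a1 := Mp_mul hp hq
    have a2 := Mp_mul hq hp
    rw [show 1 + 1 = 2 from rfl] at a1 a2
    have a3 : (2 : k)⁻¹ • uop k p q ∈ Mp k b 2 := Submodule.smul_mem _ _ hpq
    rw [e]
    exact Submodule.sub_mem _ (Submodule.add_mem _ a1 a2) a3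
  have lgen : ∀ i : Fin 2, LL k (v (.of i)) ∈ Mp k b 1 := by
    intro i
    fin_cases i
    · change LL k (v (.of 0)) ∈ _
      rw [v0]; exact lx
    · change LL k (v (.of 1)) ∈ _
      rw [v1]; exact ly
  intro n
  induction n using Nat.strong_induction_on with
  | _ n ih =>
  have tri : ∀ p q r : FreeMagma (Fin 2), p.length + q.length + r.length = n →
      LL k ((v p * v q) * v r) ∈ Mp k b n := by
    intro p q r hn
    have hp := p.length_pos
    have hq := q.length_pos
    have hr := r.length_pos
    have Lp := ih p.length (by omega) p rfl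
    have Lq := ih q.length (by omega) q rfl
    have Lr := ih r.length (by omega) r rfl
    have Lrp : LL k (v r * v p) ∈ Mp k b (r.length + p.length) := by
      rw [← vm]; exact ih (r.length + p.length) (by omega) (r * p) rfl
    have Lrq : LL k (v r * v q) ∈ Mp k b (r.length + q.length) := by
      rw [← vm]; exact ih (r.length + q.length) (by omega) (r * q) rfl
    have Lpq : LL k (v p * v q) ∈ Mp k b (p.length + q.length) := by
      rw [← vm]; exact ih (p.length + q.length) (by omega) (p * q) rfl
    have t1 := Mp_mul Lrp Lq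
    have t2 := Mp_mul Lrq Lp
    have t3 := Mp_mul Lpq Lr
    have t4 := Mp_mul (Mp_mul Lp Lr) Lq
    have t5 := Mp_mul (Mp_mul Lq Lr) Lp
    rw [show r.length + p.length + q.length = n by omega] at t1
    rw [show r.length + q.length + p.length = n by omega] at t2
    rw [show p.length + q.length + r.length = n by omega] at t3
    rw [show p.length + r.length + q.length = n by omega] at t4
    rw [show q.length + r.length + p.length = n by omega] at t5
    rw [F2 hJ]
    exact sub_mem (sub_mem (add_mem (add_mem t1 t2) t3) t4) t5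
  intro w hw
  rcases w with i | ⟨p, q⟩
  · have : n = 1 := hw.symm
    subst this
    exact lgen i
  · change p.length + q.length = n at hw
    change LL k (v (p * q)) ∈ _
    rw [vm]
    rcases p with i | ⟨p, p'⟩
    · rcases q with j | ⟨q, q'⟩
      · have : n = 2 := hw.symm
        subst this
        refine prod _ _ (lgen i) (lgen j) ?_
        fin_cases i <;> fin_cases j
        · change uop k (v (.of 0)) (v (.of 0)) ∈ _
          rw [v0]; exact mXX
        · change uop k (v (.of 0)) (v (.of 1)) ∈ _
          rw [v0, v1]; exact mT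
        · change uop k (v (.of 1)) (v (.of 0)) ∈ _
          rw [v0, v1, uop_comm hJ]; exact mT
        · change uop k (v (.of 1)) (v (.of 1)) ∈ _
          rw [v1]; exact mYY
      · change (FreeMagma.of i).length + (q.length + q'.length) = n at hw
        rw [jc hJ]
        change LL k (v (q * q') * _) ∈ _
        rw [vm]
        exact tri q q' _ (by omega)
    · change p.length + p'.length + q.length = n at hw
      change LL k (v (p * p') * _) ∈ _
      rw [vm]
      exact tri p p' q hw

end maps

section count

theorem fin_invol {k V W : Type*} [Field k] [AddCommGroup V] [Module k V] [Fintype W]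
    [DecidableEq W] (σ : W → W) (hσ : ∀ w, σ (σ w) = w) (g : W → V) (hg : ∀ w, g (σ w) = g w) :
    2 * Module.finrank k (Submodule.span k (Set.range g)) ≤
      Fintype.card W + (Finset.univ.filter fun w => σ w = w).card := by
  classical
  set φ := Fintype.equivFin W
  set S : Finset W := Finset.univ.filter fun w => φ w ≤ φ (σ w) with hS
  have h1 : Submodule.span k (Set.range g) = Submodule.span k ((S.image g : Finset V) : Set V) := by
    apply le_antisymm
    · refine Submodule.span_le.2 ?_
      rintro _ ⟨w, rfl⟩
      apply Submodule.subset_span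
      rcases le_total (φ w) (φ (σ w)) with h | h
      · exact Finset.mem_coe.2 (Finset.mem_image_of_mem g (by simp [hS, h]))
      · rw [← hg w]
        exact Finset.mem_coe.2 (Finset.mem_image_of_mem g (by simp [hS, h, hσ]))
    · refine Submodule.span_mono ?_
      intro v hv
      obtain ⟨w, _, rfl⟩ := Finset.mem_image.1 (Finset.mem_coe.1 hv)
      exact ⟨w, rfl⟩
  have h2 : Module.finrank k (Submodule.span k (Set.range g)) ≤ S.card := by
    rw [h1]
    exact (finrank_span_finset_le_card _).trans Finset.card_image_le
  have h3 : S ∪ S.image σ = Finset.univ := by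
    ext w
    simp only [Finset.mem_union, Finset.mem_univ, iff_true]
    rcases le_total (φ w) (φ (σ w)) with h | h
    · left; simp [hS, h]
    · right
      exact Finset.mem_image.2 ⟨σ w, by simp [hS, h, hσ], hσ w⟩
  have h4 : S ∩ S.image σ ⊆ Finset.univ.filter fun w => σ w = w := by
    intro w hw
    obtain ⟨hw1, hw2⟩ := Finset.mem_inter.1 hw
    obtain ⟨w', hw', rfl⟩ := Finset.mem_image.1 hw2
    simp only [hS, Finset.mem_filter, Finset.mem_univ, true_and, hσ] at hw1 hw' ⊢
    exact φ.injective (le_antisymm hw' hw1)
  have h5 : (S.image σ).card = S.card :=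
    Finset.card_image_of_injective _ (Function.LeftInverse.injective (g := σ) hσ)
  have h6 := Finset.card_union_add_card_inter S (S.image σ)
  have h7 := Finset.card_le_card h4
  rw [h3, h5, Finset.card_univ] at h6
  omega

theorem pal_card (n : ℕ) : (Finset.univ.filter fun f : Fin n → Bool => f ∘ Fin.rev = f).card ≤
    2 ^ ((n + 1) / 2) := by
  have h : Fintype.card (Fin ((n + 1) / 2) → Bool) = 2 ^ ((n + 1) / 2) := by simp
  rw [← h, ← Finset.card_univ]
  refine Finset.card_le_card_of_injOn
    (fun f i => f ⟨i.1, by have := i.2; omega⟩) (fun _ _ => Finset.mem_coe.2 (Finset.mem_univ _)) ?_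
  intro f hf g hg hfg
  rw [Finset.mem_coe, Finset.mem_filter] at hf hg
  funext i
  by_cases hi : i.1 < (n + 1) / 2
  · exact congrFun hfg ⟨i.1, hi⟩
  · have h1 : (Fin.rev i).1 < (n + 1) / 2 := by
      rw [Fin.val_rev]; have := i.2; omega
    have h2 := congrFun hfg ⟨(Fin.rev i).1, h1⟩
    have e1 : f i = f (Fin.rev i) := (congrFun hf.2 i).symm
    have e2 : g i = g (Fin.rev i) := (congrFun hg.2 i).symm
    rw [e1, e2]
    exact h2

theorem Bs_fin {k J : Type*} [Field k] [NonAssocRing J] [Module k J] (b : List Bool → J)
    (hb : ∀ w, b w.reverse = b w) (n : ℕ) :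
    2 * Module.finrank k (Bs k b n) ≤ 2 ^ n + 2 ^ ((n + 1) / 2) := by
  classical
  have e : Bs k b n = Submodule.span k (Set.range fun f : Fin n → Bool => b (List.ofFn f)) := by
    unfold Bs
    congr 1
    ext z
    constructor
    · rintro ⟨w, rfl, rfl⟩
      exact ⟨w.get, by simp⟩
    · rintro ⟨f, rfl⟩
      exact ⟨List.ofFn f, by simp, rfl⟩
  rw [e]
  have h := fin_invol (k := k) (fun f : Fin n → Bool => f ∘ Fin.rev)
    (fun f => by funext i; simp) (fun f : Fin n → Bool => b (List.ofFn f)) (fun f => by
      have : List.ofFn (f ∘ Fin.rev) = (List.ofFn f).reverse := by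
        apply List.ext_getElem
        · simp
        · intro i h1 h2
          simp [List.getElem_reverse, Fin.rev]
          congr 1
          ext
          simp
          omega
      simp only [this, hb])
  have h2 := pal_card n
  have h3 : Fintype.card (Fin n → Bool) = 2 ^ n := by simp
  rw [h3] at h
  omega

end count

theorem shirshov (k : Type*) [Field k] [CharZero k] (n : ℕ) :
    2 * Module.finrank k (qcomp (jordRel k 2) n) ≤ 2 ^ n + 2 ^ ((n + 1) / 2) := by
  have hA : IsJord (FreeJord k 2) := fun u v => ⟨jord_comm u v, jord_id u v⟩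
  have hJ := isJord_unit (k := k) hA
  set v : FreeMagma (Fin 2) → Unitization k (FreeJord k 2) := fun w =>
    Unitization.inr (qmk (jordRel k 2) (MonoidAlgebra.single w 1)) with hv
  have vm : ∀ p q, v (p * q) = v p * v q := by
    intro p q
    simp only [hv]
    have : (MonoidAlgebra.single (p * q) 1 : NF k 2) =
      MonoidAlgebra.single p 1 * MonoidAlgebra.single q 1 := by
      rw [MonoidAlgebra.single_mul_single, one_mul]
    rw [this, qmk_mul, Unitization.inr_mul]
  obtain ⟨S, he, hX, hY, hT⟩ := shirA (k := k) hJ (v (.of 0)) (v (.of 1))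
  obtain ⟨b, b0, br, b1, b2, b3, b4, b5⟩ := shirB S
  have hm := vals hJ _ _ b S hX hY hT b1 b2 b3 b4 b5 v rfl rfl vm
  have hle : (qcomp (jordRel k 2) n).map (Unitization.inrHom k k (FreeJord k 2)) ≤ Bs k b n := by
    rw [Submodule.map_le_iff_le_comap]
    refine Submodule.span_le.2 ?_
    rintro _ ⟨w, hw, rfl⟩
    rw [SetLike.mem_coe, Submodule.mem_comap]
    change v w ∈ _
    have h1 := hm n w hw 0 (b []) (Bs_mem [])
    rw [b0, he, zero_add, map_smul, LinearMap.mulLeft_apply, mul_one] at h1
    have h2 := Submodule.smul_mem _ (2 : k)⁻¹ h1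
    rw [smul_smul, inv_mul_cancel₀ two_ne_zero, one_smul] at h2
    exact h2
  have hfin : FiniteDimensional k (Bs k b n) := by
    apply FiniteDimensional.span_of_finite
    refine ((Set.finite_range fun f : Fin n → Bool => b (List.ofFn f))).subset ?_
    rintro _ ⟨w, rfl, rfl⟩
    exact ⟨w.get, by simp⟩
  have h1 : Module.finrank k (qcomp (jordRel k 2) n) ≤ Module.finrank k (Bs k b n) := by
    have e := LinearEquiv.finrank_eq (Submodule.equivMapOfInjective
      (Unitization.inrHom k k (FreeJord k 2)) Unitization.inrHom_injective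
      (qcomp (jordRel k 2) n))
    rw [e]
    exact Submodule.finrank_mono hle
  have h2 := Bs_fin (k := k) b br n
  omega

end Pool.Agent.Y515.KI
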